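import Pool.Agent.L7h87.NC.Drv

/-!
Chains of points which agree on subfields, and independent points.
-/

set_option autoImplicit false
set_option linter.all false

open IntermediateField

namespace Pool.Agent.L7h87.NC

theorem exists_max {P : ℕ → Prop} (h0 : P 0) {n : ℕ} (hn : ∀ m, P m → m ≤ n) :
    ∃ m, P m ∧ ∀ m', P m' → m' ≤ m := by
  classical
  refine ⟨Nat.findGreatest P n, ?_, fun m' hm' => Nat.le_findGreatest (hn m' hm') hm'⟩
  exact Nat.findGreatest_spec (P := P) (Nat.zero_le n) h0

theorem step_aux {M₀ K E Ω : Type} [Field M₀] [Field K] [Field E] [Field Ω] [IsAlgClosed Ω]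
    [Algebra M₀ K] [Algebra E Ω] (i₁ : M₀ →+* E) {ι : Type} {s : ι → K}
    (hs : IsTranscendenceBasis M₀ s) {u : ι → Ω} (hu : AlgebraicIndependent E u) :
    ∃ ψ : K →+* Ω, (∀ a : M₀, ψ (algebraMap M₀ K a) = algebraMap E Ω (i₁ a)) ∧
      ∀ j, ψ (s j) = u j := by
  let _ : Algebra M₀ E := i₁.toAlgebra
  let _ : Algebra M₀ Ω := ((algebraMap E Ω).comp i₁).toAlgebra
  have : IsScalarTower M₀ E Ω := IsScalarTower.of_algebraMap_eq fun _ => rfl
  obtain ⟨ψ, hψ⟩ := extend_point hs (hu.restrictScalars (R := M₀) i₁.injective)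
  exact ⟨(ψ : K →+* Ω), fun a => ψ.commutes a, hψ⟩

section chain

variable {K Ω : Type} [Field K] [Field Ω] [Algebra ℂ K] [Algebra ℂ Ω]

/-- the points `x` and `x'` agree on one of the subfields -/
def Adj {ι : Type} (M : ι → IntermediateField ℂ K) (x x' : K →ₐ[ℂ] Ω) : Prop :=
  ∃ i, ∀ f ∈ M i, x f = x' f

theorem fg_range [Algebra.EssFiniteType ℂ K] (x : K →ₐ[ℂ] Ω) : x.fieldRange.FG := by
  obtain ⟨s, hs⟩ := IntermediateField.fg_top ℂ K
  rw [AlgHom.fieldRange_eq_map, ← hs, IntermediateField.adjoin_map]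
  exact IntermediateField.fg_adjoin_of_finite (s.finite_toSet.image _)

variable [Algebra K Ω] [IsScalarTower ℂ K Ω]

/-- generic points with prescribed restriction to `M₀` -/
theorem generic_step [Algebra.EssFiniteType ℂ K] [IsAlgClosed Ω]
    (hΩ : Cardinal.aleph0 ≤ Algebra.trdeg ℂ Ω) (x : K →ₐ[ℂ] Ω) (M₀ : IntermediateField ℂ K)
    {ι κ : Type} [Finite ι] {s : ι → K} (hs : IsTranscendenceBasis M₀ s) {V : κ → K}
    (hVM : ∀ i, V i ∈ M₀) (hV : AlgebraicIndependent K fun i => x (V i)) :
    ∃ x' : K →ₐ[ℂ] Ω, (∀ f ∈ M₀, x f = x' f) ∧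
      AlgebraicIndependent K (Sum.elim (fun i => x' (V i)) (fun j => x' (s j))) := by
  obtain ⟨E, hE⟩ : ∃ E : IntermediateField ℂ Ω,
      E = (IsScalarTower.toAlgHom ℂ K Ω).fieldRange ⊔ x.fieldRange := ⟨_, rfl⟩
  have hE0 : ∀ f : K, algebraMap K Ω f ∈ E := fun f => by
    rw [hE]
    exact (le_sup_left : (IsScalarTower.toAlgHom ℂ K Ω).fieldRange ≤ _) ⟨f, rfl⟩
  have hE1 : ∀ f : K, x f ∈ E := fun f => by
    rw [hE]
    exact (le_sup_right : x.fieldRange ≤ _) ⟨f, rfl⟩
  have hEf : Algebra.EssFiniteType ℂ E := by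
    rw [IntermediateField.essFiniteType_iff, hE]
    exact IntermediateField.fg_sup (fg_range _) (fg_range _)
  obtain ⟨u, hu⟩ := exists_indep hΩ E ι
  let i₁ : M₀ →+* E := ((x : K →+* Ω).comp (algebraMap M₀ K)).codRestrict E fun a => hE1 _
  obtain ⟨ψ, hψM, hψ⟩ := step_aux i₁ hs hu
  let x' : K →ₐ[ℂ] Ω :=
    { ψ with
      commutes' := fun a => by
        change ψ (algebraMap ℂ K a) = _
        have h1 : algebraMap ℂ K a = algebraMap M₀ K (algebraMap ℂ M₀ a) := rfl
        rw [h1, hψM]
        exact x.commutes a }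
  have hx'M : ∀ f ∈ M₀, x f = x' f := by
    intro f hf
    exact (hψM ⟨f, hf⟩).symm
  refine ⟨x', hx'M, ?_⟩
  let i₂ : K →+* E := (algebraMap K Ω).codRestrict E fun a => hE0 _
  let _ : Algebra K E := i₂.toAlgebra
  have : IsScalarTower K E Ω := IsScalarTower.of_algebraMap_eq fun _ => rfl
  have h2 : AlgebraicIndependent K (Sum.elim u fun i => x (V i)) := by
    refine hV.sumElim_of_tower (S := E) ?_ hu
    rintro _ ⟨i, rfl⟩
    exact ⟨⟨x (V i), hE1 _⟩, rfl⟩
  have h3 := h2.comp Sum.swap Sum.swap_leftInverse.injective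
  have h4 : (Sum.elim u fun i => x (V i)) ∘ Sum.swap =
      Sum.elim (fun i => x' (V i)) (fun j => x' (s j)) := by
    funext a
    rcases a with i | j
    · exact hx'M _ (hVM i)
    · exact (hψ j).symm
  rw [h4] at h3
  exact h3

/-- **Points at the end of long chains.** -/
theorem exists_generic [Algebra.EssFiniteType ℂ K] [IsAlgClosed Ω]
    (hΩ : Cardinal.aleph0 ≤ Algebra.trdeg ℂ Ω) {n : ℕ} (hn : Algebra.trdeg ℂ K = n)
    {ι : Type} (M : ι → IntermediateField ℂ K) :
    ∃ x : K →ₐ[ℂ] Ω, Relation.ReflTransGen (Adj M) (IsScalarTower.toAlgHom ℂ K Ω) x ∧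
      ∀ i (D : Derivation (M i) K K), ∃ D' : Derivation K Ω Ω, ∀ f, D' (x f) = x (D f) := by
  classical
  let P : ℕ → Prop := fun m => ∃ x : K →ₐ[ℂ] Ω,
    Relation.ReflTransGen (Adj M) (IsScalarTower.toAlgHom ℂ K Ω) x ∧
      ∃ t : Fin m → K, AlgebraicIndependent K fun j => x (t j)
  have hP0 : P 0 := ⟨_, Relation.ReflTransGen.refl, Fin.elim0, by
    rw [algebraicIndependent_empty_type_iff]
    exact (algebraMap K Ω).injective⟩
  have hPn : ∀ m, P m → m ≤ n := by
    rintro m ⟨x, -, t, ht⟩
    have h1 : AlgebraicIndependent ℂ fun j => x (t j) :=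
      ht.restrictScalars (R := ℂ) (algebraMap ℂ K).injective
    have h2 : AlgebraicIndependent ℂ t := AlgebraicIndependent.of_comp x h1
    have h3 := h2.cardinalMk_le_trdeg
    rw [hn, Cardinal.mk_fin] at h3
    exact_mod_cast h3
  obtain ⟨m, ⟨x, hx, t, ht⟩, hmax⟩ := exists_max hP0 hPn
  refine ⟨x, hx, fun i D => ?_⟩
  let P' : ℕ → Prop := fun a => ∃ V : Fin a → K, (∀ j, V j ∈ M i) ∧
    AlgebraicIndependent K fun j => x (V j)
  have hP'0 : P' 0 := ⟨Fin.elim0, fun j => j.elim0, by
    rw [algebraicIndependent_empty_type_iff]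
    exact (algebraMap K Ω).injective⟩
  have hP'm : ∀ a, P' a → a ≤ m := by
    rintro a ⟨V, -, hV⟩
    exact hmax a ⟨x, hx, V, hV⟩
  obtain ⟨a, ⟨V, hVM, hV⟩, hmax'⟩ := exists_max hP'0 hP'm
  have hVb : ∀ b ∈ M i, IsAlgebraic
      (IntermediateField.adjoin K (Set.range fun j => x (V j))) (x b) := by
    intro b hb
    by_contra hcon
    have h1 : Transcendental (Algebra.adjoin K (Set.range fun j => x (V j))) (x b) := by
      intro h2
      apply hcon
      open scoped algebraAdjoinAdjoin in
      exact (IsFractionRing.isAlgebraic_iff (Algebra.adjoin K (Set.range fun j => x (V j)))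
        (IntermediateField.adjoin K (Set.range fun j => x (V j))) Ω).1 h2
    have h2 := AlgebraicIndependent.option_iff.2 ⟨hV, h1⟩
    have h3 := h2.comp (finSuccEquiv a) (finSuccEquiv a).injective
    have h4 : P' (a + 1) := by
      refine ⟨Fin.cons b V, ?_, ?_⟩
      · intro j
        refine Fin.cases ?_ (fun k => ?_) j
        · rw [Fin.cons_zero]; exact hb
        · rw [Fin.cons_succ]; exact hVM k
      · convert h3 using 1
        funext j
        refine Fin.cases ?_ (fun k => ?_) j
        · rw [Fin.cons_zero, Function.comp_apply, finSuccEquiv_zero]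
          rfl
        · rw [Fin.cons_succ, Function.comp_apply, finSuccEquiv_succ]
          rfl
    have := hmax' _ h4
    omega
  have hess : Algebra.EssFiniteType (M i) K := Algebra.EssFiniteType.of_comp ℂ (M i) K
  obtain ⟨ι', s, hs⟩ := exists_isTranscendenceBasis' (M i) K
  have hfin : Finite ι' := finite_of_isTranscendenceBasis hs
  obtain ⟨x', hxx', hx'⟩ := generic_step hΩ x (M i) hs hVM hV
  have hcard : Cardinal.mk (Fin a ⊕ ι') ≤ Cardinal.mk (Fin m) := by
    obtain ⟨N, ⟨e⟩⟩ := Finite.exists_equiv_fin (Fin a ⊕ ι')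
    have h1 : P N := by
      refine ⟨x', hx.tail ⟨i, hxx'⟩, fun j => (Sum.elim V s) (e.symm j), ?_⟩
      have h2 := hx'.comp e.symm e.symm.injective
      convert h2 using 1
      funext j
      rw [Function.comp_apply]
      rcases h : e.symm j with k | k
      · simp [h]
      · simp [h]
    rw [Cardinal.mk_congr e, Cardinal.mk_fin, Cardinal.mk_fin]
    exact_mod_cast hmax N h1
  set w : Fin a ⊕ ι' → Ω := Sum.elim (fun j => x (V j)) (fun j => x (s j)) with hw
  have hcl : ∀ f, IsAlgebraic (IntermediateField.adjoin K (Set.range w)) (x f) := by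
    intro f
    let C := algebraicClosure (IntermediateField.adjoin K (Set.range w)) Ω
    let Z : Subfield K := C.toSubfield.comap (x : K →+* Ω)
    have hZ : ∀ g, g ∈ Z ↔ IsAlgebraic (IntermediateField.adjoin K (Set.range w)) (x g) :=
      fun g => mem_algebraicClosure_iff
    have h1 : IsAlgebraic Z f := by
      refine isAlg_mono ?_ (hs.isAlgebraic_field.isAlgebraic f)
      intro g hg
      have hg' : g ∈ IntermediateField.adjoin (M i) (Set.range s) := hg
      clear hg
      induction hg' using IntermediateField.adjoin_induction with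
      | mem g hg =>
        obtain ⟨j, rfl⟩ := hg
        rw [hZ]
        exact isAlgebraic_algebraMap (⟨w (Sum.inr j), IntermediateField.subset_adjoin _ _
          ⟨_, rfl⟩⟩ : IntermediateField.adjoin K (Set.range w))
      | algebraMap g =>
        rw [hZ]
        refine isAlg_mono (A := (IntermediateField.adjoin K
          (Set.range fun j => x (V j))).toSubfield) (B := (IntermediateField.adjoin K
          (Set.range w)).toSubfield) ?_ (hVb _ g.2)
        change IntermediateField.adjoin K (Set.range fun j => x (V j)) ≤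
          IntermediateField.adjoin K (Set.range w)
        refine IntermediateField.adjoin.mono _ _ _ ?_
        rintro _ ⟨j, rfl⟩
        exact ⟨Sum.inl j, rfl⟩
      | add a b _ _ ha hb => exact add_mem ha hb
      | mul a b _ _ ha hb => exact mul_mem ha hb
      | inv a _ ha => exact inv_mem ha
    have h2 : IsAlgebraic C (x f) :=
      isAlg_map (x : K →+* Ω) (W := C.toSubfield) (fun a ha => ha) h1
    have h3 : x f ∈ algebraicClosure (algebraicClosure (IntermediateField.adjoin K (Set.range w)) Ω) Ω :=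
      mem_algebraicClosure_iff.2 h2
    rw [algebraicClosure.algebraicClosure_eq_bot] at h3
    obtain ⟨g, hg⟩ := IntermediateField.mem_bot.1 h3
    rw [← hg]
    exact mem_algebraicClosure_iff.1 g.2
  have hindep : AlgebraicIndependent K w := indep_of_card ht (fun j => hcl (t j)) hcard
  exact exists_lift (x : K →+* Ω) (M i) hs hindep hVb D

end chain

end Pool.Agent.L7h87.NC
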