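import Pool.Agent.L7h87.NC.Ht

/-!
Classes of divisors, hyperplane sections, and the linear forms on `N¹(X)` given by the heights.
-/

set_option autoImplicit false
set_option linter.all false

open FF Pool.Agent.Y172 Pool.Agent.N110 Pool.Agent.N110.CC

namespace Pool.Agent.L7h87.NC

section cls

variable {K : Type} [Field K] [Algebra ℂ K] {N ρ : ℕ} {y : Fin (N + 1) → K}
  {c : Place ℂ K → Fin ρ → ℤ}

theorem IsDiv.add {D D' : Place ℂ K → ℤ} (h : IsDiv y D) (h' : IsDiv y D') : IsDiv y (D + D') := by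
  refine (h.union h').subset ?_
  rintro P ⟨hP, h0⟩
  rw [Pi.add_apply] at h0
  by_cases h1 : D P = 0
  · exact Or.inr ⟨hP, fun h2 => h0 (by rw [h1, h2]; rfl)⟩
  · exact Or.inl ⟨hP, h1⟩

theorem IsDiv.zsmul {D : Place ℂ K → ℤ} (h : IsDiv y D) (a : ℤ) : IsDiv y (a • D) := by
  refine h.subset ?_
  rintro P ⟨hP, h0⟩
  refine ⟨hP, fun h1 => h0 ?_⟩
  rw [Pi.smul_apply, h1, smul_zero]

theorem IsDiv.nsmul {D : Place ℂ K → ℤ} (h : IsDiv y D) (a : ℕ) : IsDiv y (a • D) := by
  have := h.zsmul (a : ℤ)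
  rwa [natCast_zsmul] at this

theorem IsDiv.zero : IsDiv y (0 : Place ℂ K → ℤ) := by
  refine Set.finite_empty.subset ?_
  rintro P ⟨-, h⟩
  exact h rfl

theorem IsDiv.ord (hy : NormalModel y) {f : K} (hf : f ≠ 0) : IsDiv y fun P => P.ord f :=
  finite_ord hy hf

theorem IsDiv.sum {ι : Type*} (s : Finset ι) {D : ι → Place ℂ K → ℤ} (h : ∀ i ∈ s, IsDiv y (D i)) :
    IsDiv y (∑ i ∈ s, D i) := by
  classical
  induction s using Finset.induction_on with
  | empty => rw [Finset.sum_empty]; exact IsDiv.zero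
  | insert i s hi ih =>
    rw [Finset.sum_insert hi]
    exact (h i (Finset.mem_insert_self _ _)).add
      (ih fun j hj => h j (Finset.mem_insert_of_mem hj))

theorem divClass_finset {D : Place ℂ K → ℤ} {S : Finset (Place ℂ K)}
    (hS : ∀ P ∈ S, IsPrimeDivisor y P) (hD : ∀ P, IsPrimeDivisor y P → D P ≠ 0 → P ∈ S) :
    divClass y c D = ∑ P ∈ S, (D P : ℝ) • rcl c P := by
  unfold divClass
  apply finsum_mem_eq_sum_of_inter_support_eq
  ext P
  simp only [Set.mem_inter_iff, Set.mem_setOf_eq, Function.mem_support, Finset.mem_coe]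
  constructor
  · rintro ⟨h1, h2⟩
    refine ⟨hD P h1 fun h3 => h2 ?_, h2⟩
    rw [h3, Int.cast_zero, zero_smul]
  · rintro ⟨h1, h2⟩
    exact ⟨hS P h1, h2⟩

theorem cls_finset' {D : Place ℂ K → ℤ} {S : Finset (Place ℂ K)}
    (hS : ∀ P ∈ S, IsPrimeDivisor y P) (hD : ∀ P, IsPrimeDivisor y P → D P ≠ 0 → P ∈ S) :
    cls y (fun P i => (c P i : ℚ)) (fun P => (D P : ℚ)) =
      ∑ P ∈ S, (D P : ℚ) • (fun i => (c P i : ℚ)) := by
  unfold cls
  apply finsum_mem_eq_sum_of_inter_support_eq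
  ext P
  simp only [Set.mem_inter_iff, Set.mem_setOf_eq, Function.mem_support, Finset.mem_coe]
  constructor
  · rintro ⟨h1, h2⟩
    refine ⟨hD P h1 fun h3 => h2 ?_, h2⟩
    rw [h3, Int.cast_zero, zero_smul]
  · rintro ⟨h1, h2⟩
    exact ⟨hS P h1, h2⟩

theorem cls_eq {D : Place ℂ K → ℤ} (h : IsDiv y D) (j : Fin ρ) :
    ((cls y (fun P i => (c P i : ℚ)) (fun P => (D P : ℚ)) j : ℚ) : ℝ) = divClass y c D j := by
  classical
  have hS : ∀ P ∈ h.toFinset, IsPrimeDivisor y P := fun P hP => ((Set.Finite.mem_toFinset h).1 hP).1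
  have hD : ∀ P, IsPrimeDivisor y P → D P ≠ 0 → P ∈ h.toFinset := fun P h1 h2 =>
    (Set.Finite.mem_toFinset h).2 ⟨h1, h2⟩
  rw [cls_finset' hS hD, divClass_finset hS hD, Finset.sum_apply, Finset.sum_apply]
  push_cast
  refine Finset.sum_congr rfl fun P _ => ?_
  rw [Pi.smul_apply, Pi.smul_apply, smul_eq_mul, smul_eq_mul]
  push_cast
  rfl

theorem divClass_add {D D' : Place ℂ K → ℤ} (h : IsDiv y D) (h' : IsDiv y D') :
    divClass y c (D + D') = divClass y c D + divClass y c D' := by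
  classical
  have hS : ∀ P ∈ h.toFinset ∪ h'.toFinset, IsPrimeDivisor y P := fun P hP => by
    rcases Finset.mem_union.1 hP with hP | hP
    · exact ((Set.Finite.mem_toFinset h).1 hP).1
    · exact ((Set.Finite.mem_toFinset h').1 hP).1
  have h1 : ∀ P, IsPrimeDivisor y P → D P ≠ 0 → P ∈ h.toFinset ∪ h'.toFinset := fun P h1 h2 =>
    Finset.mem_union_left _ ((Set.Finite.mem_toFinset h).2 ⟨h1, h2⟩)
  have h2 : ∀ P, IsPrimeDivisor y P → D' P ≠ 0 → P ∈ h.toFinset ∪ h'.toFinset := fun P h1 h2 =>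
    Finset.mem_union_right _ ((Set.Finite.mem_toFinset h').2 ⟨h1, h2⟩)
  have h3 : ∀ P, IsPrimeDivisor y P → (D + D') P ≠ 0 → P ∈ h.toFinset ∪ h'.toFinset := by
    intro P hP h0
    by_cases h4 : D P = 0
    · exact h2 P hP fun h5 => h0 (by rw [Pi.add_apply, h4, h5]; rfl)
    · exact h1 P hP h4
  rw [divClass_finset hS h1, divClass_finset hS h2, divClass_finset hS h3,
    ← Finset.sum_add_distrib]
  refine Finset.sum_congr rfl fun P _ => ?_
  rw [Pi.add_apply, Int.cast_add, add_smul]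

theorem divClass_congr {D D' : Place ℂ K → ℤ} (h : ∀ P, IsPrimeDivisor y P → D P = D' P) :
    divClass y c D = divClass y c D' := by
  unfold divClass
  refine finsum_mem_congr rfl fun P hP => ?_
  rw [h P hP]

theorem divClass_zero : divClass y c (0 : Place ℂ K → ℤ) = 0 := by
  have h := divClass_finset (y := y) (c := c) (D := (0 : Place ℂ K → ℤ)) (S := ∅) (by simp)
    (fun P _ h => absurd rfl h)
  rw [h, Finset.sum_empty]

/-- the class of a divisor, as a homomorphism on the group of the divisors -/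
noncomputable def DivGrp (y : Fin (N + 1) → K) : AddSubgroup (Place ℂ K → ℤ) where
  carrier := {D | IsDiv y D}
  zero_mem' := IsDiv.zero
  add_mem' := fun h h' => IsDiv.add h h'
  neg_mem' := fun {D} h => by
    have := IsDiv.zsmul h (-1)
    rwa [neg_one_zsmul] at this

noncomputable def cl (y : Fin (N + 1) → K) (c : Place ℂ K → Fin ρ → ℤ) :
    DivGrp y →+ (Fin ρ → ℝ) where
  toFun D := divClass y c D.1
  map_zero' := divClass_zero
  map_add' D D' := divClass_add D.2 D'.2

theorem divClass_nsmul {D : Place ℂ K → ℤ} (h : IsDiv y D) (m : ℕ) :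
    divClass y c (m • D) = (m : ℝ) • divClass y c D := by
  have h1 := map_nsmul (cl y c) m ⟨D, h⟩
  have h2 : (m : ℝ) • divClass y c D = m • divClass y c D := Nat.cast_smul_eq_nsmul ℝ m _
  rw [h2]
  exact h1

theorem divClass_sum {ι : Type*} (s : Finset ι) {D : ι → Place ℂ K → ℤ}
    (h : ∀ i ∈ s, IsDiv y (D i)) : divClass y c (∑ i ∈ s, D i) = ∑ i ∈ s, divClass y c (D i) := by
  classical
  induction s using Finset.induction_on with
  | empty => rw [Finset.sum_empty, Finset.sum_empty]; exact divClass_zero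
  | insert i s hi ih =>
    rw [Finset.sum_insert hi, Finset.sum_insert hi, divClass_add (h i (Finset.mem_insert_self _ _))
      (IsDiv.sum s fun j hj => h j (Finset.mem_insert_of_mem hj)),
      ih fun j hj => h j (Finset.mem_insert_of_mem hj)]

end cls

section hyp

variable {K : Type} [Field K] [Algebra ℂ K] {N : ℕ} {y : Fin (N + 1) → K}

theorem hyp_eq {P : Place ℂ K} {l : Fin (N + 1)} (h : Centred y l P) : hyp y P = - P.ord (y l) := by
  apply IsGreatest.csSup_eq
  refine ⟨⟨l, h.1, rfl⟩, ?_⟩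
  rintro _ ⟨i, hi, rfl⟩
  have h1 := (P.reg_iff (div_ne_zero hi h.1)).1 (h.2 i)
  rw [P.ord_div hi h.1] at h1
  omega

theorem hyp_isDiv (hy : NormalModel y) : IsDiv y (hyp y) := by
  have h1 : (⋃ i ∈ {i | y i ≠ 0}, {P : Place ℂ K | IsPrimeDivisor y P ∧ P.ord (y i) ≠ 0}).Finite :=
    (Set.toFinite _).biUnion fun i hi => finite_ord hy hi
  refine h1.subset ?_
  rintro P ⟨hP, h0⟩
  obtain ⟨l, hl⟩ := exists_centred hy P
  rw [hyp_eq hl] at h0
  exact Set.mem_biUnion (show l ∈ {i | y i ≠ 0} from hl.1) ⟨hP, by omega⟩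

open scoped Classical in
/-- the homogeneous coordinates -/
noncomputable def coords (y : Fin (N + 1) → K) : Finset K :=
  (Finset.univ.filter fun i => y i ≠ 0).image y

theorem mem_coords {s : K} : s ∈ coords y ↔ ∃ i, y i ≠ 0 ∧ y i = s := by
  classical
  unfold coords
  simp

theorem hyp_gen (hy : NormalModel y) : Gen y (hyp y) (coords y) where
  ne := by
    obtain ⟨j, hj⟩ := hy.ne
    exact ⟨y j, mem_coords.2 ⟨j, hj, rfl⟩⟩
  sec := by
    intro s hs
    obtain ⟨i, hi, rfl⟩ := mem_coords.1 hs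
    refine ⟨hi, fun P hP => ?_⟩
    obtain ⟨l, hl⟩ := exists_centred hy P
    rw [hyp_eq hl]
    have h1 := (P.reg_iff (div_ne_zero hi hl.1)).1 (hl.2 i)
    rw [P.ord_div hi hl.1] at h1
    omega
  gen := by
    intro R
    obtain ⟨l, hl⟩ := exists_centred hy R
    refine ⟨y l, mem_coords.2 ⟨l, hl.1, rfl⟩, fun P hP hPR => ?_⟩
    rw [hyp_eq (hPR.centred hl)]
    omega

end hyp

section functional

variable {K : Type} [Field K] [Algebra ℂ K] {N ρ : ℕ} {y : Fin (N + 1) → K}
  {c : Place ℂ K → Fin ρ → ℤ}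
variable {k F : Type} [Field k] [Field F] [Algebra k F] [CharZero k] [IsFF k F]

/-- the divisor `D` is base point free and has height `h` -/
def Has (k : Type) {K F : Type} [Field K] [Algebra ℂ K] [Field k] [Field F] [Algebra k F]
    [CharZero k] [IsFF k F] {N : ℕ} (y : Fin (N + 1) → K) (x : K →+* F) (D : Place ℂ K → ℤ)
    (h : ℤ) : Prop :=
  ∃ (S : Finset K) (hS : Gen y D S), ddeg (pol k x S hS.ne) = h

variable {x : K →+* F}

theorem Has.congr {D D' : Place ℂ K → ℤ} {h : ℤ} (H : Has k y x D h)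
    (hD : ∀ P, IsPrimeDivisor y P → D P = D' P) : Has k y x D' h := by
  obtain ⟨S, hS, e⟩ := H
  exact ⟨S, hS.congr hD, e⟩

theorem Has.add {D D' : Place ℂ K → ℤ} {h h' : ℤ} (H : Has k y x D h) (H' : Has k y x D' h') :
    Has k y x (D + D') (h + h') := by
  classical
  obtain ⟨S, hS, e⟩ := H
  obtain ⟨S', hS', e'⟩ := H'
  refine ⟨_, hS.add hS', ?_⟩
  rw [pol_mul hS.ne hS'.ne (fun s hs => (hS.sec s hs).1) (fun s hs => (hS'.sec s hs).1), ddeg_add,
    e, e']

theorem Has.zero : Has k y x 0 0 := by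
  refine ⟨{1}, Gen.one, ?_⟩
  apply ddeg_pol_eq_zero
  · intro s hs
    rw [Finset.mem_singleton] at hs
    rw [hs]
    exact one_ne_zero
  · intro s hs t ht w
    rw [Finset.mem_singleton] at hs ht
    rw [hs, ht, div_one, map_one, w.ord_one]

theorem Has.nsmul {D : Place ℂ K → ℤ} {h : ℤ} (H : Has k y x D h) (n : ℕ) :
    Has k y x (n • D) (n * h) := by
  induction n with
  | zero =>
    rw [zero_smul, Nat.cast_zero, zero_mul]
    exact Has.zero
  | succ n ih =>
    have := ih.add H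
    rw [succ_nsmul]
    have e : ((n + 1 : ℕ) : ℤ) * h = n * h + h := by push_cast; ring
    rw [e]
    exact this

theorem Has.shift {D : Place ℂ K → ℤ} {h : ℤ} (H : Has k y x D h) {g : K} (hg : g ≠ 0) :
    Has k y x (fun P => D P + P.ord g) h := by
  classical
  obtain ⟨S, hS, e⟩ := H
  refine ⟨_, hS.shift hg, ?_⟩
  rw [pol_shift hS.ne (fun s hs => (hS.sec s hs).1) hg, ddeg_add, ddeg_divisor, e, add_zero]

theorem Has.le (hy : NormalModel y) (hx : Over k x) {D D' : Place ℂ K → ℤ} {h h' : ℤ}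
    (H : Has k y x D h) (H' : Has k y x D' h') (hD : ∀ P, IsPrimeDivisor y P → D P ≤ D' P) :
    h ≤ h' := by
  obtain ⟨S, hS, rfl⟩ := H
  obtain ⟨S', hS', rfl⟩ := H'
  exact ddeg_mono (pol_mono hy hx hS hS' hD)

theorem Has.unique (hy : NormalModel y) (hx : Over k x) {D D' : Place ℂ K → ℤ} {h h' : ℤ}
    (H : Has k y x D h) (H' : Has k y x D' h') (hD : ∀ P, IsPrimeDivisor y P → D P = D' P) :
    h = h' :=
  le_antisymm (H.le hy hx H' fun P hP => (hD P hP).le)
    (H'.le hy hx H fun P hP => (hD P hP).ge)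

theorem Free.has {D : Place ℂ K → ℤ} (h : Free y D) : ∃ a, Has k y x D a := by
  obtain ⟨-, S, hS⟩ := h
  exact ⟨_, S, hS, rfl⟩

/-- The height of the divisor `D` is `r`. -/
def IsHt (k : Type) {K F : Type} [Field K] [Algebra ℂ K] [Field k] [Field F] [Algebra k F]
    [CharZero k] [IsFF k F] {N : ℕ} (y : Fin (N + 1) → K) (x : K →+* F) (D : Place ℂ K → ℤ)
    (r : ℝ) : Prop :=
  ∃ (m l : ℕ) (h a : ℤ), 1 ≤ m ∧ Has k y x (m • D + l • hyp y) h ∧ Has k y x (hyp y) a ∧
    (m : ℝ) * r = h - l * a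

theorem exists_isHt (hy : NormalModel y) (hQ : QFactorial y) {D : Place ℂ K → ℤ} (hD : IsDiv y D) :
    ∃ r, IsHt k y x D r := by
  obtain ⟨m, hm, l, hf⟩ := hQ D hD
  obtain ⟨h, hh⟩ := hf.has (k := k) (x := x)
  obtain ⟨a, ha⟩ : ∃ a, Has k y x (hyp y) a := ⟨_, _, hyp_gen hy, rfl⟩
  refine ⟨(h - l * a) / m, m, l, h, a, hm, hh, ha, ?_⟩
  have : (m : ℝ) ≠ 0 := by positivity
  field_simp

theorem IsHt.of_has (hy : NormalModel y) {D : Place ℂ K → ℤ} {h : ℤ} (H : Has k y x D h) :
    IsHt k y x D h := by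
  obtain ⟨a, ha⟩ : ∃ a, Has k y x (hyp y) a := ⟨_, _, hyp_gen hy, rfl⟩
  refine ⟨1, 0, h, a, le_rfl, ?_, ha, ?_⟩
  · rw [one_smul, zero_smul, add_zero]
    exact H
  · push_cast
    ring

theorem IsHt.le (hy : NormalModel y) (hx : Over k x) {D D' : Place ℂ K → ℤ} {r r' : ℝ}
    (H : IsHt k y x D r) (H' : IsHt k y x D' r') (hD : ∀ P, IsPrimeDivisor y P → D P ≤ D' P) :
    r ≤ r' := by
  obtain ⟨m, l, h, a, hm, h1, h2, h3⟩ := H
  obtain ⟨m', l', h', a', hm', h1', h2', h3'⟩ := H'
  have e0 : a = a' := h2.unique hy hx h2' fun _ _ => rfl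
  subst e0
  have h4 := (h1.nsmul m').add (h2.nsmul (m * l'))
  have h5 := (h1'.nsmul m).add (h2.nsmul (m' * l))
  have h6 := h4.le hy hx h5 fun P hP => by
    simp only [Pi.add_apply, Pi.smul_apply]
    simp only [nsmul_eq_mul]
    have h7 := mul_le_mul_of_nonneg_left (hD P hP) (show (0 : ℤ) ≤ m * m' by positivity)
    push_cast
    nlinarith
  have h7 : (m' : ℝ) * h + (m * l') * a ≤ m * h' + (m' * l) * a := by exact_mod_cast h6
  have hm0 : (0 : ℝ) < m := by exact_mod_cast hm
  have hm0' : (0 : ℝ) < m' := by exact_mod_cast hm'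
  have h8 : (m : ℝ) * m' * r ≤ m * m' * r' := by
    have e1 : (m : ℝ) * m' * r = m' * (h - l * a) := by rw [← h3]; ring
    have e2 : (m : ℝ) * m' * r' = m * (h' - l' * a) := by rw [← h3']; ring
    rw [e1, e2]
    linarith
  exact le_of_mul_le_mul_left h8 (by positivity)

theorem IsHt.unique (hy : NormalModel y) (hx : Over k x) {D D' : Place ℂ K → ℤ} {r r' : ℝ}
    (H : IsHt k y x D r) (H' : IsHt k y x D' r') (hD : ∀ P, IsPrimeDivisor y P → D P = D' P) :
    r = r' :=
  le_antisymm (H.le hy hx H' fun P hP => (hD P hP).le)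
    (H'.le hy hx H fun P hP => (hD P hP).ge)

theorem IsHt.add (hy : NormalModel y) (hx : Over k x) {D D' : Place ℂ K → ℤ} {r r' : ℝ}
    (H : IsHt k y x D r) (H' : IsHt k y x D' r') : IsHt k y x (D + D') (r + r') := by
  obtain ⟨m, l, h, a, hm, h1, h2, h3⟩ := H
  obtain ⟨m', l', h', a', hm', h1', h2', h3'⟩ := H'
  have e0 : a = a' := h2.unique hy hx h2' fun _ _ => rfl
  subst e0
  refine ⟨m * m', m' * l + m * l', m' * h + m * h', a, Nat.one_le_iff_ne_zero.2 (by positivity),
    ((h1.nsmul m').add (h1'.nsmul m)).congr fun P _ => ?_, h2, ?_⟩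
  · simp only [Pi.add_apply, Pi.smul_apply]
    simp only [nsmul_eq_mul]
    push_cast
    ring
  · push_cast
    have e : (m : ℝ) * m' * (r + r') = m' * (m * r) + m * (m' * r') := by ring
    rw [e, h3, h3']
    ring

theorem IsHt.zero (hy : NormalModel y) : IsHt k y x (0 : Place ℂ K → ℤ) 0 := by
  have := IsHt.of_has hy (Has.zero (k := k) (y := y) (x := x))
  rwa [Int.cast_zero] at this

theorem IsHt.ord (hy : NormalModel y) {f : K} (hf : f ≠ 0) :
    IsHt k y x (fun P => P.ord f) 0 := by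
  have h1 := (Has.zero (k := k) (y := y) (x := x)).shift hf
  have h2 := IsHt.of_has hy h1
  rw [Int.cast_zero] at h2
  obtain ⟨m, l, h, a, hm, h1, h3, h4⟩ := h2
  exact ⟨m, l, h, a, hm, h1.congr fun P _ => by simp, h3, h4⟩

/-- the height, as a homomorphism -/
noncomputable def htHom (k : Type) {K F : Type} [Field K] [Algebra ℂ K] [Field k] [Field F]
    [Algebra k F] [CharZero k] [IsFF k F] {N : ℕ} {y : Fin (N + 1) → K} {x : K →+* F}
    (hy : NormalModel y) (hQ : QFactorial y) (hx : Over k x) : DivGrp y →+ ℝ where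
  toFun D := (exists_isHt (k := k) (x := x) hy hQ D.2).choose
  map_zero' := (exists_isHt (k := k) (x := x) hy hQ (0 : DivGrp y).2).choose_spec.unique hy hx
    (IsHt.zero hy) fun _ _ => rfl
  map_add' D D' := (exists_isHt (k := k) (x := x) hy hQ (D + D' : DivGrp y).2).choose_spec.unique
    hy hx ((exists_isHt (k := k) (x := x) hy hQ D.2).choose_spec.add hy hx
      (exists_isHt (k := k) (x := x) hy hQ D'.2).choose_spec) fun _ _ => rfl

theorem htHom_spec (hy : NormalModel y) (hQ : QFactorial y) (hx : Over k x) (D : DivGrp y) :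
    IsHt k y x D.1 (htHom k hy hQ hx D) :=
  (exists_isHt (k := k) (x := x) hy hQ D.2).choose_spec

theorem htHom_nonneg (hy : NormalModel y) (hQ : QFactorial y) (hx : Over k x) (D : DivGrp y)
    (h : ∀ P, IsPrimeDivisor y P → 0 ≤ D.1 P) : 0 ≤ htHom k hy hQ hx D :=
  (IsHt.zero hy).le hy hx (htHom_spec hy hQ hx D) h

theorem htHom_eq (hy : NormalModel y) (hQ : QFactorial y) (hx : Over k x) (D : DivGrp y) {h : ℤ}
    (H : Has k y x D.1 h) : htHom k hy hQ hx D = h :=
  (htHom_spec hy hQ hx D).unique hy hx (IsHt.of_has hy H) fun _ _ => rfl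

theorem htHom_ord (hy : NormalModel y) (hQ : QFactorial y) (hx : Over k x) {f : K} (hf : f ≠ 0) :
    htHom k hy hQ hx ⟨fun P => P.ord f, IsDiv.ord hy hf⟩ = 0 :=
  (htHom_spec hy hQ hx _).unique hy hx (IsHt.ord hy hf) fun _ _ => rfl

/-- numerically trivial divisors have height zero -/
theorem htHom_trivial (hy : NormalModel y) (hQ : QFactorial y) (hx : Over k x)
    (hc : NumClasses y c) (D : DivGrp y) (hD : cl y c D = 0) : htHom k hy hQ hx D = 0 := by
  -- one inequality
  have key : ∀ D : DivGrp y, cl y c D = 0 → 0 ≤ htHom k hy hQ hx D := by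
    intro D hD
    obtain ⟨i, hi⟩ := hy.ne
    have h1 : cls y (fun P i => (c P i : ℚ)) (fun P => (D.1 P : ℚ)) = 0 := by
      funext j
      have h2 := cls_eq (c := c) D.2 j
      have h3 : divClass y c D.1 j = 0 := congrFun hD j
      rw [h3] at h2
      exact_mod_cast h2
    have hfin : {P | IsPrimeDivisor y P ∧ ((D.1 P : ℚ)) ≠ 0}.Finite := by
      refine Set.Finite.subset D.2 ?_
      rintro P ⟨hP, h0⟩
      exact ⟨hP, fun h => h0 (by rw [h, Int.cast_zero])⟩
    let H : DivGrp y := ⟨hyp y, hyp_isDiv hy⟩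
    have h2 : ∀ q : ℕ, 1 ≤ q → 0 ≤ q * htHom k hy hQ hx D + htHom k hy hQ hx H := by
      intro q hq
      obtain ⟨m, hm, f, hf, h3⟩ := hc.trivial _ hfin h1 i hi q hq
      have hfy : f * y i ^ m ≠ 0 := mul_ne_zero hf (pow_ne_zero _ hi)
      let G : DivGrp y := ⟨fun P => P.ord (f * y i ^ m), IsDiv.ord hy hfy⟩
      have h4 := htHom_nonneg hy hQ hx (G + (m * q) • D + m • H) fun P hP => by
        obtain ⟨l, hl⟩ := exists_centred hy P
        have h5 := h3 P l hP hl
        rw [P.ord_div hi hl.1] at h5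
        change 0 ≤ P.ord (f * y i ^ m) + (m * q) • D.1 P + m • hyp y P
        rw [hyp_eq hl, P.ord_mul hf (pow_ne_zero _ hi), P.ord_pow, nsmul_eq_mul, nsmul_eq_mul]
        have h6 : (0 : ℚ) ≤ ((P.ord f + m * P.ord (y i) + (m * q : ℕ) * D.1 P +
            (m : ℕ) * (-P.ord (y l)) : ℤ) : ℚ) := by
          push_cast
          push_cast at h5
          linarith
        exact_mod_cast h6
      rw [map_add, map_add, map_nsmul, map_nsmul, htHom_ord hy hQ hx hfy, zero_add, nsmul_eq_mul,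
        nsmul_eq_mul] at h4
      have hm0 : (0 : ℝ) < m := by exact_mod_cast hm
      push_cast at h4
      have h5 : 0 ≤ (m : ℝ) * (q * htHom k hy hQ hx D + htHom k hy hQ hx H) := by linarith
      exact nonneg_of_mul_nonneg_right h5 hm0
    by_contra hneg
    push Not at hneg
    obtain ⟨q, hq⟩ := exists_nat_gt (htHom k hy hQ hx H / (- htHom k hy hQ hx D))
    have h3 := h2 (q + 1) (by omega)
    have h4 : 0 < - htHom k hy hQ hx D := by linarith
    rw [div_lt_iff₀ h4] at hq
    push_cast at h3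
    linarith
  have h1 := key D hD
  have h2 := key (-D) (by rw [map_neg, hD, neg_zero])
  rw [map_neg] at h2
  linarith

/-- **The linear form on `N¹(X)` given by the heights.** -/
theorem exists_form (hy : NormalModel y) (hQ : QFactorial y) (hx : Over k x)
    (hc : PicardBasis y c) : ∃ r : Module.Dual ℝ (Fin ρ → ℝ),
      (∀ (D : Place ℂ K → ℤ) (h : ℤ), IsDiv y D → Has k y x D h → r (divClass y c D) = h) ∧
      (∀ D : Place ℂ K → ℤ, IsDiv y D → (∀ P, IsPrimeDivisor y P → 0 ≤ D P) →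
        0 ≤ r (divClass y c D)) := by
  classical
  -- divisors with the classes of the basis
  have h1 : ∀ v : Fin ρ → ℤ, ∃ D : DivGrp y, cl y c D = fun j => (v j : ℝ) := by
    intro v
    have h2 := hc.generate v
    induction h2 using AddSubgroup.closure_induction with
    | mem z hz =>
      obtain ⟨P, hP, rfl⟩ := hz
      refine ⟨⟨fun Q => if Q = P then 1 else 0, ?_⟩, ?_⟩
      · refine (Set.finite_singleton P).subset ?_
        rintro Q ⟨-, h⟩
        by_contra hne
        exact h (if_neg hne)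
      · change divClass y c (fun Q => if Q = P then 1 else 0) = _
        rw [divClass_finset (S := {P}) (by simpa using hP) (fun Q _ h => by
          by_contra hne
          rw [Finset.mem_singleton] at hne
          exact h (if_neg hne)), Finset.sum_singleton, if_pos rfl, Int.cast_one, one_smul]
        rfl
    | zero => exact ⟨0, by rw [map_zero]; funext j; simp⟩
    | add a b _ _ ha hb =>
      obtain ⟨D, hD⟩ := ha
      obtain ⟨D', hD'⟩ := hb
      exact ⟨D + D', by rw [map_add, hD, hD']; funext j; simp⟩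
    | neg a _ ha =>
      obtain ⟨D, hD⟩ := ha
      exact ⟨-D, by rw [map_neg, hD]; funext j; simp⟩
  choose B hB using fun j : Fin ρ => h1 (Pi.single j 1)
  let r : Module.Dual ℝ (Fin ρ → ℝ) := ∑ j, (htHom k hy hQ hx (B j)) • LinearMap.proj j
  have hr : ∀ z, r z = ∑ j, htHom k hy hQ hx (B j) * z j := by
    intro z
    simp [r, LinearMap.sum_apply]
  -- integrality of the classes
  have hint : ∀ D : DivGrp y, ∃ v : Fin ρ → ℤ, cl y c D = fun j => (v j : ℝ) := by
    intro D
    have hS : ∀ P ∈ (Set.Finite.toFinset D.2), IsPrimeDivisor y P := fun P hP =>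
      ((Set.Finite.mem_toFinset D.2).1 hP).1
    have hD : ∀ P, IsPrimeDivisor y P → D.1 P ≠ 0 → P ∈ (Set.Finite.toFinset D.2) :=
      fun P h1 h2 => (Set.Finite.mem_toFinset D.2).2 ⟨h1, h2⟩
    refine ⟨fun j => ∑ P ∈ (Set.Finite.toFinset D.2), D.1 P * c P j, ?_⟩
    change divClass y c D.1 = _
    rw [divClass_finset hS hD]
    funext j
    rw [Finset.sum_apply]
    push_cast
    rfl
  have hkey : ∀ D : DivGrp y, r (cl y c D) = htHom k hy hQ hx D := by
    intro D
    obtain ⟨v, hv⟩ := hint D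
    have h2 : cl y c (D - ∑ j, v j • B j) = 0 := by
      rw [map_sub, map_sum, hv]
      funext i
      rw [Pi.sub_apply, Finset.sum_apply]
      have h3 : ∀ j, cl y c (v j • B j) i = if i = j then (v j : ℝ) else 0 := by
        intro j
        rw [map_zsmul, hB, Pi.smul_apply, Pi.single_apply]
        split_ifs with h <;> simp
      rw [Finset.sum_congr rfl fun j _ => h3 j, Finset.sum_ite_eq]
      simp
    have h3 := htHom_trivial hy hQ hx hc.numClasses _ h2
    rw [map_sub, map_sum, sub_eq_zero] at h3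
    rw [hr, h3, hv]
    refine Finset.sum_congr rfl fun j _ => ?_
    rw [map_zsmul, zsmul_eq_mul]
    ring
  refine ⟨r, fun D h hD H => ?_, fun D hD h0 => ?_⟩
  · have h2 := hkey ⟨D, hD⟩
    rw [htHom_eq hy hQ hx ⟨D, hD⟩ H] at h2
    exact h2
  · have h2 := hkey ⟨D, hD⟩
    have h3 := htHom_nonneg hy hQ hx ⟨D, hD⟩ h0
    rw [← h2] at h3
    exact h3

end functional

end Pool.Agent.L7h87.NC
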