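import Mathlib

/-!
Finitely generated cones and the extremal rays of their duals.
-/

set_option autoImplicit false
set_option linter.all false

namespace Pool.Agent.L7h87.NC.Cvx

section

variable {V : Type*} [AddCommGroup V] [Module ℝ V] {α : Type*} (T : Finset α) (v : α → V)

/-- the dual cone -/
def NE : Set (Module.Dual ℝ V) := {r | ∀ t ∈ T, 0 ≤ r (v t)}

/-- `r` generates an extremal ray of the dual cone -/
def Ray (r : Module.Dual ℝ V) : Prop :=
  r ∈ NE T v ∧ r ≠ 0 ∧ ∀ a ∈ NE T v, ∀ b ∈ NE T v, a + b = r → ∃ t : ℝ, 0 ≤ t ∧ a = t • r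

variable {T v}

theorem mult {r φ : Module.Dual ℝ V} (hr : Ray T v r)
    (h : ∀ t ∈ T, r (v t) = 0 → φ (v t) = 0) : ∃ s : ℝ, φ = s • r := by
  classical
  set M : ℝ := 1 + ∑ t ∈ T, |φ (v t)| / r (v t) with hM
  have hterm : ∀ t ∈ T, 0 ≤ |φ (v t)| / r (v t) := fun t ht =>
    div_nonneg (abs_nonneg _) (hr.1 t ht)
  have hM0 : 0 < M := by
    have := Finset.sum_nonneg hterm
    linarith
  have key : ∀ t ∈ T, |φ (v t)| ≤ M * r (v t) := by
    intro t ht
    rcases (hr.1 t ht).eq_or_lt with h0 | h0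
    · rw [h t ht h0.symm, ← h0, abs_zero, mul_zero]
    · have h1 : |φ (v t)| / r (v t) ≤ M := by
        have := Finset.single_le_sum hterm ht
        linarith
      rwa [div_le_iff₀ h0] at h1
  obtain ⟨s, -, hs⟩ := hr.2.2 ((2 : ℝ)⁻¹ • (r + M⁻¹ • φ)) (by
    intro t ht
    have h1 := key t ht
    have h2 := abs_le.1 h1
    simp only [LinearMap.smul_apply, LinearMap.add_apply, smul_eq_mul]
    have h3 : 0 ≤ M * r (v t) + φ (v t) := by linarith
    have h4 : r (v t) + M⁻¹ * φ (v t) = M⁻¹ * (M * r (v t) + φ (v t)) := by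
      field_simp
    rw [h4]
    positivity) ((2 : ℝ)⁻¹ • (r - M⁻¹ • φ)) (by
    intro t ht
    have h1 := key t ht
    have h2 := abs_le.1 h1
    simp only [LinearMap.smul_apply, LinearMap.sub_apply, smul_eq_mul]
    have h3 : 0 ≤ M * r (v t) - φ (v t) := by linarith
    have h4 : r (v t) - M⁻¹ * φ (v t) = M⁻¹ * (M * r (v t) - φ (v t)) := by
      field_simp
    rw [h4]
    positivity) (by
    ext x
    simp only [LinearMap.smul_apply, LinearMap.sub_apply, LinearMap.add_apply, smul_eq_mul]
    ring)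
  refine ⟨M * (2 * s - 1), ?_⟩
  ext x
  have h1 := congrArg (fun f : Module.Dual ℝ V => f x) hs
  simp only [LinearMap.smul_apply, LinearMap.add_apply, smul_eq_mul] at h1 ⊢
  have h2 : M⁻¹ * φ x = (2 * s - 1) * r x := by linarith
  calc φ x = M * (M⁻¹ * φ x) := by field_simp
    _ = M * ((2 * s - 1) * r x) := by rw [h2]
    _ = M * (2 * s - 1) * r x := by ring

theorem mink (hspan : ∀ φ : Module.Dual ℝ V, (∀ t ∈ T, φ (v t) = 0) → φ = 0) {x : V}
    (hx : ∀ r, Ray T v r → 0 ≤ r x) : ∀ r ∈ NE T v, 0 ≤ r x := by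
  classical
  have main : ∀ n : ℕ, ∀ r ∈ NE T v, (T.filter fun t => r (v t) ≠ 0).card ≤ n → 0 ≤ r x := by
    intro n
    induction n using Nat.strong_induction_on with
    | _ n ih =>
      intro r hr hn
      by_cases hr0 : r = 0
      · rw [hr0]; simp
      by_cases hE : Ray T v r
      · exact hx r hE
      have hE' : ∃ a ∈ NE T v, ∃ b ∈ NE T v, a + b = r ∧ ¬ ∃ t : ℝ, 0 ≤ t ∧ a = t • r := by
        by_contra hcon
        push Not at hcon
        refine hE ⟨hr, hr0, fun a ha b hb hab => ?_⟩
        by_contra h2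
        push Not at h2
        obtain ⟨t, ht, ht'⟩ := hcon a ha b hb hab
        exact h2 t ht ht'
      obtain ⟨a, ha, b, hb, hab, hnot⟩ := hE'
      have hle : ∀ t ∈ T, a (v t) ≤ r (v t) := by
        intro t ht
        have := hb t ht
        rw [← hab, LinearMap.add_apply]
        linarith
      set P := T.filter fun t => r (v t) ≠ 0 with hP
      have hPpos : ∀ t ∈ P, 0 < r (v t) := fun t ht => by
        rw [hP, Finset.mem_filter] at ht
        exact lt_of_le_of_ne (hr t ht.1) (Ne.symm ht.2)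
      have hPT : ∀ t ∈ P, t ∈ T := fun t ht => (Finset.mem_filter.1 ht).1
      have hPz : ∀ t ∈ T, t ∉ P → r (v t) = 0 := fun t ht h => by
        by_contra h0
        exact h (Finset.mem_filter.2 ⟨ht, h0⟩)
      have hPne : P.Nonempty := by
        by_contra hcon
        rw [Finset.not_nonempty_iff_eq_empty] at hcon
        exact hr0 (hspan r fun t ht => hPz t ht (by rw [hcon]; exact Finset.notMem_empty t))
      obtain ⟨t₀, ht₀, hmin⟩ := Finset.exists_min_image P (fun t => a (v t) / r (v t)) hPne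
      set μ := a (v t₀) / r (v t₀) with hμ
      have hμ0 : 0 ≤ μ := div_nonneg (ha t₀ (hPT t₀ ht₀)) (hPpos t₀ ht₀).le
      set a' : Module.Dual ℝ V := a - μ • r with ha'
      have ha'v : ∀ x, a' x = a x - μ * r x := fun x => by
        simp [ha']
      have ha'NE : a' ∈ NE T v := by
        intro t ht
        rw [ha'v]
        by_cases htP : t ∈ P
        · have h1 := hmin t htP
          rw [le_div_iff₀ (hPpos t htP)] at h1
          linarith
        · have h1 := hPz t ht htP
          have h2 := hle t ht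
          have h3 := ha t ht
          rw [h1] at h2 ⊢
          linarith
      have ha't₀ : a' (v t₀) = 0 := by
        rw [ha'v, hμ]
        have := hPpos t₀ ht₀
        field_simp
        ring
      have ha'0 : a' ≠ 0 := by
        intro h0
        refine hnot ⟨μ, hμ0, ?_⟩
        rw [ha'] at h0
        exact sub_eq_zero.1 h0
      have ha'z : ∀ t ∈ T, t ∉ P → a' (v t) = 0 := by
        intro t ht htP
        have h1 := hPz t ht htP
        have h2 := hle t ht
        have h3 := ha t ht
        rw [ha'v]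
        rw [h1] at h2 ⊢
        linarith
      set P' := T.filter fun t => a' (v t) ≠ 0 with hP'
      have hP'pos : ∀ t ∈ P', 0 < a' (v t) := fun t ht => by
        rw [hP', Finset.mem_filter] at ht
        exact lt_of_le_of_ne (ha'NE t ht.1) (Ne.symm ht.2)
      have hP'P : P' ⊆ P := by
        intro t ht
        rw [hP', Finset.mem_filter] at ht
        by_contra h
        exact ht.2 (ha'z t ht.1 h)
      have hP'ne : P'.Nonempty := by
        by_contra hcon
        rw [Finset.not_nonempty_iff_eq_empty] at hcon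
        refine ha'0 (hspan a' fun t ht => ?_)
        by_contra h0
        have : t ∈ P' := Finset.mem_filter.2 ⟨ht, h0⟩
        rw [hcon] at this
        exact Finset.notMem_empty t this
      obtain ⟨t₁, ht₁, hmin₁⟩ := Finset.exists_min_image P' (fun t => r (v t) / a' (v t)) hP'ne
      set ε := r (v t₁) / a' (v t₁) with hε
      have hε0 : 0 < ε := div_pos (hPpos t₁ (hP'P ht₁)) (hP'pos t₁ ht₁)
      set r' : Module.Dual ℝ V := r - ε • a' with hr'
      have hr'v : ∀ x, r' x = r x - ε * a' x := fun x => by simp [hr']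
      have hr'NE : r' ∈ NE T v := by
        intro t ht
        rw [hr'v]
        by_cases htP : t ∈ P'
        · have h1 := hmin₁ t htP
          rw [le_div_iff₀ (hP'pos t htP)] at h1
          linarith
        · have h1 : a' (v t) = 0 := by
            by_contra h0
            exact htP (Finset.mem_filter.2 ⟨ht, h0⟩)
          rw [h1, mul_zero, sub_zero]
          exact hr t ht
      have hr't₁ : r' (v t₁) = 0 := by
        rw [hr'v, hε]
        have := hP'pos t₁ ht₁
        field_simp
        ring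
      have hc1 : P'.card < n := by
        have h1 : P' ⊆ P.erase t₀ := by
          intro t ht
          refine Finset.mem_erase.2 ⟨?_, hP'P ht⟩
          rintro rfl
          exact absurd ha't₀ (hP'pos t ht).ne'
        have h2 := Finset.card_le_card h1
        rw [Finset.card_erase_of_mem ht₀] at h2
        have h3 : 0 < P.card := Finset.card_pos.2 hPne
        omega
      have hc2 : (T.filter fun t => r' (v t) ≠ 0).card < n := by
        have h1 : (T.filter fun t => r' (v t) ≠ 0) ⊆ P.erase t₁ := by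
          intro t ht
          rw [Finset.mem_filter] at ht
          refine Finset.mem_erase.2 ⟨?_, ?_⟩
          · rintro rfl
            exact ht.2 hr't₁
          · by_contra h
            apply ht.2
            rw [hr'v, hPz t ht.1 h, ha'z t ht.1 h]
            ring
        have h2 := Finset.card_le_card h1
        rw [Finset.card_erase_of_mem (hP'P ht₁)] at h2
        have h3 : 0 < P.card := Finset.card_pos.2 hPne
        omega
      have e1 := ih _ hc1 a' ha'NE le_rfl
      have e2 := ih _ hc2 r' hr'NE le_rfl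
      have e3 := hr'v x
      have e4 : 0 ≤ ε * a' x := mul_nonneg hε0.le e1
      linarith
  intro r hr
  exact main _ r hr le_rfl

end

section fin

variable {ρ : ℕ} {α : Type*} {T : Finset α} {v : α → Fin ρ → ℝ}

/-- the cone generated by the vectors `v t` -/
def Gcone (T : Finset α) (v : α → Fin ρ → ℝ) : Set (Fin ρ → ℝ) :=
  {x | ∃ a : α → ℝ, (∀ t, 0 ≤ a t) ∧ x = ∑ t ∈ T, a t • v t}

theorem Gcone.smul {x : Fin ρ → ℝ} (hx : x ∈ Gcone T v) {s : ℝ} (hs : 0 ≤ s) :
    s • x ∈ Gcone T v := by
  obtain ⟨a, ha, rfl⟩ := hx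
  refine ⟨fun t => s * a t, fun t => mul_nonneg hs (ha t), ?_⟩
  rw [Finset.smul_sum]
  exact Finset.sum_congr rfl fun t _ => smul_smul _ _ _

theorem Gcone.add {x x' : Fin ρ → ℝ} (hx : x ∈ Gcone T v) (hx' : x' ∈ Gcone T v) :
    x + x' ∈ Gcone T v := by
  obtain ⟨a, ha, rfl⟩ := hx
  obtain ⟨a', ha', rfl⟩ := hx'
  refine ⟨fun t => a t + a' t, fun t => add_nonneg (ha t) (ha' t), ?_⟩
  rw [← Finset.sum_add_distrib]
  exact Finset.sum_congr rfl fun t _ => (add_smul _ _ _).symm

theorem Gcone.zero : (0 : Fin ρ → ℝ) ∈ Gcone T v :=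
  ⟨fun _ => 0, fun _ => le_rfl, by simp⟩

theorem Gcone.mem {t : α} (ht : t ∈ T) : v t ∈ Gcone T v := by
  classical
  refine ⟨fun s => if s = t then 1 else 0, fun s => by beta_reduce; split_ifs <;> simp, ?_⟩
  rw [Finset.sum_eq_single t]
  · simp
  · intro b _ hb
    simp [hb]
  · intro h
    exact absurd ht h

theorem convex_Gcone : Convex ℝ (Gcone T v) := by
  intro x hx y hy a b ha hb _
  exact Gcone.add (Gcone.smul hx ha) (Gcone.smul hy hb)

/-- Hahn–Banach -/
theorem mem_of_dual (hcl : IsClosed (Gcone T v)) {x : Fin ρ → ℝ} (hx : ∀ r ∈ NE T v, 0 ≤ r x) :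
    x ∈ Gcone T v := by
  by_contra hnot
  obtain ⟨f, u, h1, h2⟩ := geometric_hahn_banach_closed_point convex_Gcone hcl hnot
  have h0 : 0 < u := by
    have := h1 0 Gcone.zero
    rwa [map_zero] at this
  have hle : ∀ z ∈ Gcone T v, f z ≤ 0 := by
    intro z hz
    by_contra hcon
    push Not at hcon
    have h3 := h1 ((u / f z) • z) (Gcone.smul hz (div_nonneg h0.le hcon.le))
    rw [map_smul, smul_eq_mul, div_mul_cancel₀ _ hcon.ne'] at h3
    exact lt_irrefl _ h3
  have h4 := hx (-(f : (Fin ρ → ℝ) →ₗ[ℝ] ℝ)) (by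
    intro t ht
    have := hle _ (Gcone.mem ht)
    change 0 ≤ -(f (v t))
    linarith)
  have h5 : 0 ≤ -(f x) := h4
  linarith

theorem nonneg_of_mem {r : Module.Dual ℝ (Fin ρ → ℝ)} (hr : r ∈ NE T v) {x : Fin ρ → ℝ}
    (hx : x ∈ Gcone T v) : 0 ≤ r x := by
  obtain ⟨a, ha, rfl⟩ := hx
  rw [map_sum]
  refine Finset.sum_nonneg fun t ht => ?_
  rw [map_smul, smul_eq_mul]
  exact mul_nonneg (ha t) (hr t ht)

theorem Gcone.sum {ι : Type*} (s : Finset ι) {x : ι → Fin ρ → ℝ}
    (hx : ∀ i ∈ s, x i ∈ Gcone T v) : ∑ i ∈ s, x i ∈ Gcone T v := by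
  classical
  induction s using Finset.induction_on with
  | empty => rw [Finset.sum_empty]; exact Gcone.zero
  | insert i s hi ih =>
    rw [Finset.sum_insert hi]
    exact Gcone.add (hx i (Finset.mem_insert_self _ _))
      (ih fun j hj => hx j (Finset.mem_insert_of_mem hj))

/-- **Criterion for a simplicial cone.** -/
theorem simplicial_of (hsep : ∀ x : Fin ρ → ℝ, (∀ r, Ray T v r → r x = 0) → x = 0)
    (hD : ∀ (r : Fin ρ → Module.Dual ℝ (Fin ρ → ℝ)) (l : Fin ρ), (∀ j, Ray T v (r j)) →
      LinearIndependent ℝ r → ∃ D ∈ Gcone T v, D ≠ 0 ∧ ∀ j, j ≠ l → r j D = 0) :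
    ∃ b : Module.Basis (Fin ρ) ℝ (Fin ρ → ℝ),
      Gcone T v = {x | ∃ a : Fin ρ → ℝ, (∀ i, 0 ≤ a i) ∧ x = ∑ i, a i • b i} := by
  classical
  -- the extremal rays span
  have hspan : Submodule.span ℝ {r : Module.Dual ℝ (Fin ρ → ℝ) | Ray T v r} = ⊤ := by
    by_contra hne
    have hlt : Submodule.span ℝ {r : Module.Dual ℝ (Fin ρ → ℝ) | Ray T v r} < ⊤ :=
      lt_top_iff_ne_top.2 hne
    obtain ⟨f, hf0, hf⟩ := Submodule.exists_dual_map_eq_bot_of_lt_top hlt inferInstance
    obtain ⟨x, hx⟩ := (Module.bijective_dual_eval ℝ (Fin ρ → ℝ)).2 f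
    apply hf0
    rw [← hx, hsep x, map_zero]
    intro r hr
    have h1 : f r ∈ Submodule.map f (Submodule.span ℝ {r : Module.Dual ℝ (Fin ρ → ℝ) | Ray T v r}) :=
      Submodule.mem_map_of_mem (Submodule.subset_span hr)
    rw [hf, Submodule.mem_bot, ← hx] at h1
    exact h1
  obtain ⟨B, hB1, hB2, hB3⟩ := exists_linearIndependent ℝ
    {r : Module.Dual ℝ (Fin ρ → ℝ) | Ray T v r}
  rw [hspan] at hB2
  let bB : Module.Basis B ℝ (Module.Dual ℝ (Fin ρ → ℝ)) := Module.Basis.mk hB3 (by
    rw [Subtype.range_coe]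
    exact hB2.ge)
  have hfin : Finite B := Module.Finite.finite_basis bB
  have _ := Fintype.ofFinite B
  have hcard : Fintype.card B = ρ := by
    rw [← Module.finrank_eq_card_basis bB, Subspace.dual_finrank_eq, Module.finrank_fin_fun]
  let e : Fin ρ ≃ B := (Fintype.equivFinOfCardEq hcard).symm
  let br : Module.Basis (Fin ρ) ℝ (Module.Dual ℝ (Fin ρ → ℝ)) := bB.reindex e.symm
  have hbr : ∀ j, Ray T v (br j) := by
    intro j
    have h1 : br j = ((e j : B) : Module.Dual ℝ (Fin ρ → ℝ)) := by
      simp [br, bB]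
    rw [h1]
    exact hB1 (e j).2
  choose D hDm hD0 hDr using fun l => hD (fun j => br j) l hbr br.linearIndependent
  have hzero : ∀ x : Fin ρ → ℝ, (∀ j, br j x = 0) → x = 0 := by
    intro x hx
    apply hsep
    intro r _
    rw [← br.sum_repr r, LinearMap.sum_apply]
    refine Finset.sum_eq_zero fun j _ => ?_
    rw [LinearMap.smul_apply, hx j, smul_zero]
  have hpos : ∀ l, 0 < br l (D l) := by
    intro l
    refine lt_of_le_of_ne (nonneg_of_mem (hbr l).1 (hDm l)) fun h0 => hD0 l (hzero _ fun j => ?_)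
    by_cases hj : j = l
    · rw [hj, ← h0]
    · exact hDr l j hj
  have hli : LinearIndependent ℝ D := by
    rw [Fintype.linearIndependent_iff]
    intro g hg l
    have h1 := congrArg (br l) hg
    rw [map_sum, map_zero, Finset.sum_eq_single l] at h1
    · rw [map_smul, smul_eq_mul] at h1
      exact (mul_eq_zero.1 h1).resolve_right (hpos l).ne'
    · intro j _ hj
      rw [map_smul, hDr j l (Ne.symm hj), smul_zero]
    · intro h
      exact absurd (Finset.mem_univ _) h
  let b : Module.Basis (Fin ρ) ℝ (Fin ρ → ℝ) :=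
    basisOfLinearIndependentOfCardEqFinrank' D hli (by simp)
  have hb : ∀ l, b l = D l := fun l => by simp [b]
  refine ⟨b, ?_⟩
  apply Set.Subset.antisymm
  · intro x hx
    refine ⟨fun l => b.repr x l, fun l => ?_, (b.sum_repr x).symm⟩
    have h1 := nonneg_of_mem (hbr l).1 hx
    rw [← b.sum_repr x, map_sum, Finset.sum_eq_single l] at h1
    · rw [map_smul, smul_eq_mul, hb] at h1
      exact nonneg_of_mul_nonneg_left h1 (hpos l)
    · intro j _ hj
      rw [map_smul, hb, hDr j l (Ne.symm hj), smul_zero]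
    · intro h
      exact absurd (Finset.mem_univ _) h
  · rintro x ⟨a, ha, rfl⟩
    refine Gcone.sum _ fun l _ => ?_
    rw [hb]
    exact Gcone.smul (hDm l) (ha l)

end fin

end Pool.Agent.L7h87.NC.Cvx
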