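import Pool.Agent.N110.CC.Defs

/-!
Definitions: base point free divisors, `ℚ`-factorial projective varieties, the nef cone, the closed
cone of curves, its extremal rays and their contractions.
-/

set_option autoImplicit false

open FF Pool.Agent.Y172 Pool.Agent.N110 Pool.Agent.N110.CC
open Pool.Agent.Y167 (cone)

namespace Pool.Agent.L7h87.NC

section

variable {K : Type} [Field K] [Algebra ℂ K] {N ρ : ℕ}

/-- `D` is an integral divisor on `X`: finitely many prime divisors of `X` have a multiplicity
`D P ≠ 0` (the values of `D` at the other places are irrelevant). -/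
def IsDiv (y : Fin (N + 1) → K) (D : Place ℂ K → ℤ) : Prop :=
  {P | IsPrimeDivisor y P ∧ D P ≠ 0}.Finite

/-- `s` is a nonzero section of the divisor `D` on `X`: the divisor `D + div s` is effective. -/
def Sec (y : Fin (N + 1) → K) (D : Place ℂ K → ℤ) (s : K) : Prop :=
  s ≠ 0 ∧ ∀ P, IsPrimeDivisor y P → 0 ≤ P.ord s + D P

/-- The section `s` generates the divisor `D` at the centre of the place `R` on `X`: the divisor
`D + div s` has multiplicity zero along all prime divisors of `X` through this centre. -/
def GenAt (y : Fin (N + 1) → K) (D : Place ℂ K → ℤ) (s : K) (R : Place ℂ K) : Prop :=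
  ∀ P, IsPrimeDivisor y P → Through y P R → P.ord s + D P = 0

/-- The finite set `S` consists of sections of `D`, and at every point of `X`, the centre of a place
`R`, one of them generates `D`. -/
structure Gen (y : Fin (N + 1) → K) (D : Place ℂ K → ℤ) (S : Finset K) : Prop where
  ne : S.Nonempty
  sec : ∀ s ∈ S, Sec y D s
  gen : ∀ R : Place ℂ K, ∃ s ∈ S, GenAt y D s R

/-- The divisor `D` on `X` is base point free. -/
def Free (y : Fin (N + 1) → K) (D : Place ℂ K → ℤ) : Prop :=
  IsDiv y D ∧ ∃ S : Finset K, Gen y D S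

/-- The divisor on `X` whose sections include the homogeneous coordinates `y i`; it is linearly
equivalent to a hyperplane section of `X`. Its multiplicity along `P` is the largest of the numbers
`- P.ord (y i)`. -/
noncomputable def hyp (y : Fin (N + 1) → K) (P : Place ℂ K) : ℤ :=
  sSup {a : ℤ | ∃ i, y i ≠ 0 ∧ a = - P.ord (y i)}

/-- The projective variety `X` is `ℚ`-factorial: for every divisor `D` on `X` there are `m ≥ 1` and
`k` such that `m D + k H` is base point free, `H` being a hyperplane section. (By the theorem of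
Serre this means that `m D` is a Cartier divisor for some `m ≥ 1`.) -/
def QFactorial (y : Fin (N + 1) → K) : Prop :=
  ∀ D : Place ℂ K → ℤ, IsDiv y D → ∃ m : ℕ, 1 ≤ m ∧ ∃ k : ℕ, Free y (m • D + k • hyp y)

/-- The nef cone of `X`: the closed cone generated by the classes of the base point free
divisors. -/
def nefCone (y : Fin (N + 1) → K) (c : Place ℂ K → Fin ρ → ℤ) : Set (Fin ρ → ℝ) :=
  closure (coneOf {z | ∃ D, Free y D ∧ z = divClass y c D})

/-- The closed cone of curves of `X`: the dual of the nef cone, in the space `N₁(X)` of the linear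
forms on `N¹(X) ⊗ ℝ = ℝ ^ ρ`. -/
def curveCone (y : Fin (N + 1) → K) (c : Place ℂ K → Fin ρ → ℤ) :
    Set (Module.Dual ℝ (Fin ρ → ℝ)) :=
  {r | ∀ x ∈ nefCone y c, 0 ≤ r x}

/-- `r` generates an extremal ray of the cone of curves. -/
def Extremal (y : Fin (N + 1) → K) (c : Place ℂ K → Fin ρ → ℤ)
    (r : Module.Dual ℝ (Fin ρ → ℝ)) : Prop :=
  r ∈ curveCone y c ∧ r ≠ 0 ∧ ∀ a ∈ curveCone y c, ∀ b ∈ curveCone y c, a + b = r →
    ∃ t : ℝ, 0 ≤ t ∧ a = t • r

/-- The base point free divisor `D` is a supporting divisor of the extremal ray generated by `r`: it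
is zero on this ray and positive on the rest of the cone of curves. The contraction of the ray is the
morphism onto its image, with connected fibres, given by the sections of a large multiple of `D`. -/
def Supports (y : Fin (N + 1) → K) (c : Place ℂ K → Fin ρ → ℤ)
    (r : Module.Dual ℝ (Fin ρ → ℝ)) (D : Place ℂ K → ℤ) : Prop :=
  Free y D ∧ r (divClass y c D) = 0 ∧
    ∀ a ∈ curveCone y c, a (divClass y c D) = 0 → ∃ t : ℝ, 0 ≤ t ∧ a = t • r

/-- The divisor `D` on `X` is big, `n` being the dimension of `X`: for some `m ≥ 1` the image of the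
rational map given by the sections of `m D` has dimension `n`. -/
def Big (y : Fin (N + 1) → K) (n : ℕ) (D : Place ℂ K → ℤ) : Prop :=
  ∃ m : ℕ, 1 ≤ m ∧ ∃ s : Fin (n + 1) → K, (∀ i, Sec y (m • D) (s i)) ∧
    AlgebraicIndependent ℂ (fun i : Fin n => s i.succ / s 0)

/-- The nef cone is rational polyhedral and generated by the classes of finitely many base point
free divisors. -/
def NefPolyhedral (y : Fin (N + 1) → K) (c : Place ℂ K → Fin ρ → ℤ) : Prop :=
  ∃ T : Finset (Place ℂ K → ℤ), (∀ D ∈ T, Free y D) ∧
    nefCone y c = {x | ∃ a : (Place ℂ K → ℤ) → ℝ, (∀ D, 0 ≤ a D) ∧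
      x = ∑ D ∈ T, a D • divClass y c D}

/-- The cone `A` in `ℝ ^ ρ` is simplicial: it is generated by the vectors of a basis. -/
def Simplicial (A : Set (Fin ρ → ℝ)) : Prop :=
  ∃ b : Module.Basis (Fin ρ) ℝ (Fin ρ → ℝ),
    A = {x | ∃ a : Fin ρ → ℝ, (∀ i, 0 ≤ a i) ∧ x = ∑ i, a i • b i}

end

end Pool.Agent.L7h87.NC
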