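import Pool.Agent.L7h87.NC.Gpt

/-!
Lifting of derivations.
-/

set_option autoImplicit false
set_option linter.all false

open IntermediateField

namespace Pool.Agent.L7h87.NC

section xder

variable {K Ω : Type} [Field K] [Field Ω]

/-- `δ` is a derivation along the homomorphism `x` -/
structure XDer (x : K →+* Ω) (δ : K → Ω) : Prop where
  add : ∀ a b, δ (a + b) = δ a + δ b
  mul : ∀ a b, δ (a * b) = x a * δ b + x b * δ a

variable {x : K →+* Ω} {δ : K → Ω}

theorem XDer.zero (h : XDer x δ) : δ 0 = 0 := by
  have := h.add 0 0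
  rw [add_zero] at this
  exact add_eq_left.1 this.symm

theorem XDer.one (h : XDer x δ) : δ 1 = 0 := by
  have := h.mul 1 1
  rw [mul_one, map_one, one_mul] at this
  exact add_eq_left.1 this.symm

/-- the field of the constants -/
def XDer.consts (h : XDer x δ) : Subfield K where
  carrier := {a | δ a = 0}
  zero_mem' := h.zero
  one_mem' := h.one
  add_mem' := fun {a b} ha hb => by
    change δ (a + b) = 0
    rw [h.add, ha, hb, add_zero]
  mul_mem' := fun {a b} ha hb => by
    change δ (a * b) = 0
    rw [h.mul, ha, hb, mul_zero, mul_zero, add_zero]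
  neg_mem' := fun {a} ha => by
    have h1 := h.add a (-a)
    rw [add_neg_cancel, h.zero, (ha : δ a = 0), zero_add] at h1
    exact h1.symm
  inv_mem' := fun a ha => by
    change δ a⁻¹ = 0
    by_cases h0 : a = 0
    · rw [h0, inv_zero, h.zero]
    have h1 := h.mul a a⁻¹
    rw [mul_inv_cancel₀ h0, h.one, (ha : δ a = 0), mul_zero, add_zero] at h1
    exact (mul_eq_zero.1 h1.symm).resolve_left ((map_ne_zero x).2 h0)

theorem XDer.alg [CharZero K] (h : XDer x δ) {f : K} (hf : IsAlgebraic h.consts f) : δ f = 0 := by
  let _ : Algebra K Ω := x.toAlgebra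
  let _ : Algebra h.consts Ω := (x.comp h.consts.subtype).toAlgebra
  have : IsScalarTower h.consts K Ω := IsScalarTower.of_algebraMap_eq fun _ => rfl
  let D : Derivation h.consts K Ω := Derivation.mk'
    { toFun := δ
      map_add' := h.add
      map_smul' := fun c a => by
        change δ ((c : K) * a) = x (c : K) * δ a
        rw [h.mul, (c.2 : δ (c : K) = 0), mul_zero, add_zero] }
    (fun a b => h.mul a b)
  have h1 : D (Polynomial.aeval f (minpoly h.consts f)) = 0 := by
    rw [minpoly.aeval, map_zero]
  rw [Derivation.map_aeval] at h1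
  have h2 : Polynomial.aeval f (Polynomial.derivative (minpoly h.consts f)) ≠ 0 :=
    (minpoly.irreducible hf.isIntegral).separable.aeval_derivative_ne_zero (minpoly.aeval _ _)
  have h3 : x (Polynomial.aeval f (Polynomial.derivative (minpoly h.consts f))) * δ f = 0 := h1
  exact (mul_eq_zero.1 h3).resolve_left ((map_ne_zero x).2 h2)

end xder

/-- elements outside of a relatively algebraically closed subfield are detected by derivations -/
theorem exists_der_ne {K : Type} [Field K] [Algebra ℂ K] (M : IntermediateField ℂ K) {b : K}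
    (hb : Transcendental M b) : ∃ D : Derivation M K K, D b ≠ 0 := by
  have h1 : AlgebraicIndepOn M id ({b} : Set K) := by
    rw [AlgebraicIndepOn, algebraicIndependent_unique_type_iff]
    exact hb
  obtain ⟨X, hbX, hX⟩ := exists_isTranscendenceBasis_superset h1
  rw [Set.singleton_subset_iff] at hbX
  have hch : CharZero M := charZero_of_injective_algebraMap (algebraMap ℂ M).injective
  obtain ⟨D, hD⟩ := Pool.Agent.W602.GT.exists_der (L := M) (Subtype.val : X → K) hX fun _ => 1
  refine ⟨D, ?_⟩
  have := hD ⟨b, hbX⟩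
  rw [this]
  exact one_ne_zero

/-- **Derivations lift.** -/
theorem exists_lift {K Ω : Type} [Field K] [Field Ω] [Algebra ℂ K] [Algebra K Ω]
    (x : K →+* Ω) (M : IntermediateField ℂ K) {ι κ : Type} {s : ι → K}
    (hs : IsTranscendenceBasis M s) {V : κ → K}
    (hw : AlgebraicIndependent K (Sum.elim (fun i => x (V i)) (fun j => x (s j))))
    (hV : ∀ b ∈ M, IsAlgebraic (IntermediateField.adjoin K (Set.range fun i => x (V i))) (x b))
    (D : Derivation M K K) : ∃ D' : Derivation K Ω Ω, ∀ f, D' (x f) = x (D f) := by
  classical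
  have hchK : CharZero K := charZero_of_injective_algebraMap (algebraMap ℂ K).injective
  have hchΩ : CharZero Ω := charZero_of_injective_algebraMap (algebraMap K Ω).injective
  set w : κ ⊕ ι → Ω := Sum.elim (fun i => x (V i)) (fun j => x (s j)) with hwdef
  have hinj : Function.Injective w := hw.injective
  obtain ⟨B, hwB, hB⟩ := exists_isTranscendenceBasis_superset (s := Set.range w)
    (R := K) hw.to_subtype_range
  let c : B → Ω := fun b => if h : ∃ j, (b : Ω) = x (s j) then x (D (s h.choose)) else 0
  obtain ⟨D', hD'⟩ := Pool.Agent.W602.GT.exists_der (L := K) (Subtype.val : B → Ω) hB c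
  refine ⟨D', ?_⟩
  have hVB : ∀ i, D' (x (V i)) = 0 := by
    intro i
    have h1 := hD' ⟨w (Sum.inl i), hwB ⟨_, rfl⟩⟩
    have h2 : c ⟨w (Sum.inl i), hwB ⟨_, rfl⟩⟩ = 0 := by
      refine dif_neg ?_
      rintro ⟨j, hj⟩
      have h3 : w (Sum.inl i) = w (Sum.inr j) := hj
      have h4 := hinj h3
      cases h4
    rw [h2] at h1
    exact h1
  have hsB : ∀ j, D' (x (s j)) = x (D (s j)) := by
    intro j
    have h1 := hD' ⟨w (Sum.inr j), hwB ⟨_, rfl⟩⟩
    have hex : ∃ j', ((⟨w (Sum.inr j), hwB ⟨_, rfl⟩⟩ : B) : Ω) = x (s j') := ⟨j, rfl⟩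
    have h2 : c ⟨w (Sum.inr j), hwB ⟨_, rfl⟩⟩ = x (D (s hex.choose)) := dif_pos hex
    have h3 : hex.choose = j := by
      have h4 : w (Sum.inr j) = w (Sum.inr hex.choose) := hex.choose_spec
      exact (Sum.inr_injective (hinj h4)).symm
    rw [h2, h3] at h1
    exact h1
  -- `D'` is zero on the image of `M`
  have hx' : XDer (RingHom.id Ω) (fun a => D' a) :=
    ⟨fun a b => map_add D' a b, fun a b => by
      rw [D'.leibniz]
      rfl⟩
  have hM : ∀ b ∈ M, D' (x b) = 0 := by
    intro b hb
    refine hx'.alg (isAlg_mono ?_ (hV b hb))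
    intro a ha
    have ha' : a ∈ IntermediateField.adjoin K (Set.range fun i => x (V i)) := ha
    clear ha
    induction ha' using IntermediateField.adjoin_induction with
    | mem a ha =>
      obtain ⟨i, rfl⟩ := ha
      exact hVB i
    | algebraMap a => exact D'.map_algebraMap a
    | add a b _ _ ha hb => exact add_mem ha hb
    | mul a b _ _ ha hb => exact mul_mem ha hb
    | inv a _ ha => exact inv_mem ha
  -- the difference
  have hδ : XDer x (fun f => D' (x f) - x (D f)) := by
    refine ⟨fun a b => ?_, fun a b => ?_⟩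
    · simp only [map_add]
      ring
    · simp only [map_mul, map_add, D'.leibniz, D.leibniz, smul_eq_mul]
      ring
  intro f
  have h1 : D' (x f) - x (D f) = 0 := by
    refine hδ.alg (isAlg_mono ?_ (hs.isAlgebraic_field.isAlgebraic f))
    intro a ha
    have ha' : a ∈ IntermediateField.adjoin M (Set.range s) := ha
    clear ha
    induction ha' using IntermediateField.adjoin_induction with
    | mem a ha =>
      obtain ⟨j, rfl⟩ := ha
      change D' (x (s j)) - x (D (s j)) = 0
      rw [hsB, sub_self]
    | algebraMap a =>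
      change D' (x (algebraMap M K a)) - x (D (algebraMap M K a)) = 0
      rw [D.map_algebraMap, map_zero, sub_zero]
      exact hM _ a.2
    | add a b _ _ ha hb => exact add_mem ha hb
    | mul a b _ _ ha hb => exact mul_mem ha hb
    | inv a _ ha => exact inv_mem ha
  exact sub_eq_zero.1 h1

end Pool.Agent.L7h87.NC
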