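import Pool.Agent.L7h87.NC.Form

/-!
If all extremal contractions are fibrations, then effective divisors are nef, and a nonconstant
function which is constant along the fibres of some contractions gives a nef divisor which is zero on
their extremal rays.
-/

set_option autoImplicit false
set_option linter.all false

open FF Pool.Agent.Y172 Pool.Agent.N110 Pool.Agent.N110.CC IntermediateField
open Pool.Agent.L7h87.NC.Cvx

namespace Pool.Agent.L7h87.NC

section pol

variable {K : Type} [Field K] [Algebra ℂ K] {N : ℕ} {y : Fin (N + 1) → K}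
variable {k F : Type} [Field k] [Field F] [Algebra k F] [CharZero k] [IsFF k F]

theorem pol_le_of (hy : NormalModel y) {x : K →+* F} {D D' : Place ℂ K → ℤ} {S S' : Finset K}
    (h : Gen y D S) (h' : Gen y D' S') {w : Place k F} {Q : Place ℂ K} {e : ℕ}
    (hQ : ∀ f, w.ord (x f) = e * Q.ord f)
    (hD : ∀ P, IsPrimeDivisor y P → Through y P Q → D P ≤ D' P) :
    pol k x S h.ne w ≤ pol k x S' h'.ne w := by
  obtain ⟨s, hs, e1⟩ := exists_pol (x := x) h.ne w
  rw [e1]
  obtain ⟨s', hs', h1⟩ := h'.gen Q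
  refine le_trans ?_ (le_pol h'.ne w hs')
  have h2 : Q.ord s' ≤ Q.ord s := by
    refine ord_le_of hy (h'.sec s' hs').1 (h.sec s hs).1 fun P hP hPQ => ?_
    have h3 := h1 P hP hPQ
    have h4 := (h.sec s hs).2 P hP
    have h5 := hD P hP hPQ
    omega
  rw [hQ, hQ]
  have h3 : (e : ℤ) * Q.ord s' ≤ e * Q.ord s :=
    mul_le_mul_of_nonneg_left h2 (by positivity)
  omega

theorem pol_trivial {x : K →+* F} {S : Finset K} (hS : S.Nonempty) {w : Place k F}
    (h : ∀ f, w.ord (x f) = 0) : pol k x S hS w = 0 := by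
  obtain ⟨s, hs, e1⟩ := exists_pol (x := x) hS w
  rw [e1, h, neg_zero]

theorem Gen.nsmul {D : Place ℂ K → ℤ} {S : Finset K} (h : Gen y D S) (m : ℕ) :
    ∃ S', Gen y (m • D) S' := by
  classical
  have h1 := Gen.prod (y := y) (Finset.range m) (D := fun _ => D) (S := fun _ => S) fun _ _ => h
  rw [Finset.sum_const, Finset.card_range] at h1
  exact ⟨_, h1⟩

end pol

section

variable {K : Type} [Field K] [Algebra ℂ K] {N ρ : ℕ} {y : Fin (N + 1) → K}
  {c : Place ℂ K → Fin ρ → ℤ} {T : Finset (Place ℂ K → ℤ)}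
  {S : (Place ℂ K → ℤ) → Finset K} {r : Module.Dual ℝ (Fin ρ → ℝ)}

theorem essK (hy : NormalModel y) : Algebra.EssFiniteType ℂ K := by
  obtain ⟨j, hj⟩ := hy.ne
  rw [← IntermediateField.fg_top_iff, ← hy.field j hj]
  exact IntermediateField.fg_adjoin_of_finite (Set.finite_range _)

open scoped Classical in
/-- the sum of the divisors in `T` on which `r` is zero -/
noncomputable def Dr (c : Place ℂ K → Fin ρ → ℤ) (y : Fin (N + 1) → K)
    (T : Finset (Place ℂ K → ℤ)) (r : Module.Dual ℝ (Fin ρ → ℝ)) : Place ℂ K → ℤ :=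
  ∑ t ∈ T.filter (fun t => r (divClass y c t) = 0), t

open scoped Pointwise Classical in
/-- generating sections of `Dr` -/
noncomputable def Sr (c : Place ℂ K → Fin ρ → ℤ) (y : Fin (N + 1) → K)
    (T : Finset (Place ℂ K → ℤ)) (S : (Place ℂ K → ℤ) → Finset K)
    (r : Module.Dual ℝ (Fin ρ → ℝ)) : Finset K :=
  ∏ t ∈ T.filter (fun t => r (divClass y c t) = 0), S t

theorem gen_Sr (hS : ∀ t ∈ T, Gen y t (S t)) : Gen y (Dr c y T r) (Sr c y T S r) := by
  classical
  unfold Dr Sr
  exact Gen.prod _ fun t ht => hS t (Finset.mem_filter.1 ht).1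

theorem rat_Sr (hS : ∀ t ∈ T, Gen y t (S t)) {t : Place ℂ K → ℤ} (ht : t ∈ T)
    (hr : r (divClass y c t) = 0) : rat (S t) ⊆ rat (Sr c y T S r) := by
  classical
  unfold Sr
  exact rat_prod (D := fun t => t) _ (fun t ht => hS t (Finset.mem_filter.1 ht).1)
    (Finset.mem_filter.2 ⟨ht, hr⟩)

theorem Dr_isDiv (hT : Gens y c T) : IsDiv y (Dr c y T r) := by
  classical
  unfold Dr
  exact IsDiv.sum _ fun t ht => (hT.free t (Finset.mem_filter.1 ht).1).1

theorem class_Dr (hT : Gens y c T) (a : Module.Dual ℝ (Fin ρ → ℝ)) :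
    a (divClass y c (Dr c y T r)) =
      ∑ t ∈ open scoped Classical in T.filter (fun t => r (divClass y c t) = 0),
        a (divClass y c t) := by
  classical
  unfold Dr
  rw [divClass_sum _ fun t ht => (hT.free t (Finset.mem_filter.1 ht).1).1, map_sum]

theorem supports (hT : Gens y c T) (hy : NormalModel y) (hQ : QFactorial y) (hc : PicardBasis y c)
    (hS : ∀ t ∈ T, Gen y t (S t)) (hr : Ray T (divClass y c) r) :
    Supports y c r (Dr c y T r) := by
  classical
  refine ⟨⟨Dr_isDiv hT, _, gen_Sr hS⟩, ?_, ?_⟩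
  · rw [class_Dr hT]
    exact Finset.sum_eq_zero fun t ht => (Finset.mem_filter.1 ht).2
  · intro a ha h0
    rw [hT.curve] at ha
    rw [class_Dr hT, Finset.sum_eq_zero_iff_of_nonneg fun t ht =>
      ha t (Finset.mem_filter.1 ht).1] at h0
    obtain ⟨s, hs⟩ := mult hr (φ := a) fun t ht h => h0 t (Finset.mem_filter.2 ⟨ht, h⟩)
    refine ⟨s, ?_, hs⟩
    by_contra hneg
    push Not at hneg
    apply hr.2.1
    refine hT.span hy hQ hc r fun t ht => ?_
    have h1 := hr.1 t ht
    have h2 := ha t ht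
    rw [hs, LinearMap.smul_apply, smul_eq_mul] at h2
    by_contra h3
    have h4 : 0 < r (divClass y c t) := lt_of_le_of_ne h1 (Ne.symm h3)
    have := mul_neg_of_neg_of_pos hneg h4
    linarith

/-- the form given by the identity of `K`, over a subfield `k` -/
theorem exists_slice (hy : NormalModel y) (hQ : QFactorial y) (hc : PicardBasis y c)
    (E₁ : IntermediateField ℂ K) {z : K} (hz : Transcendental E₁ z) :
    ∃ (k : IntermediateField ℂ K) (_ : IsFF k K) (r' : Module.Dual ℝ (Fin ρ → ℝ)),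
      E₁ ≤ k ∧ Transcendental k z ∧ IsForm k y c (RingHom.id K) r' ∧
        Over k (RingHom.id K) := by
  have := essK hy
  obtain ⟨k, hk, hFF, hz'⟩ := slice E₁ hz
  have hx : Over k (RingHom.id K) := fun a => ⟨algebraMap ℂ k a, rfl⟩
  obtain ⟨r', hr'⟩ := exists_isForm (k := k) (x := RingHom.id K) hy hQ hx hc
  exact ⟨k, hFF, r', hk, hz', hr', hx⟩

/-- free divisors with nonzero class are positive on some curve -/
theorem exists_pos (hT : Gens y c T) (hy : NormalModel y) (hQ : QFactorial y)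
    (hc : PicardBasis y c) {D : Place ℂ K → ℤ} (hD : Free y D) (hne : divClass y c D ≠ 0) :
    ∃ r ∈ NE T (divClass y c), 0 < r (divClass y c D) := by
  classical
  obtain ⟨hDd, S, hS⟩ := hD
  obtain ⟨s₀, hs₀⟩ := hS.ne
  by_cases h1 : ∀ s ∈ S, IsAlgebraic ℂ (s / s₀)
  · exfalso
    apply hne
    have h2 : ∀ P, IsPrimeDivisor y P → D P = P.ord s₀⁻¹ := by
      intro P hP
      obtain ⟨s, hs, h3⟩ := hS.gen P
      have h4 := h3 P hP fun f hf => localRing_reg hf
      have h5 := P.ord_eq_zero_of_isAlgebraic (div_ne_zero (hS.sec s hs).1 (hS.sec s₀ hs₀).1)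
        (h1 s hs)
      rw [P.ord_div (hS.sec s hs).1 (hS.sec s₀ hs₀).1] at h5
      rw [P.ord_inv]
      omega
    have h0 : s₀⁻¹ ≠ 0 := inv_ne_zero (hS.sec s₀ hs₀).1
    rw [divClass_congr h2]
    funext j
    rw [← cls_eq (IsDiv.ord hy h0) j, hc.numClasses.principal _ h0]
    simp
  · push Not at h1
    obtain ⟨s, hs, h1⟩ := h1
    have h2 : Transcendental (⊥ : IntermediateField ℂ K) (s / s₀) := by
      intro h3
      apply h1
      have h4 : Algebra.IsAlgebraic ℂ (⊥ : IntermediateField ℂ K) := inferInstance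
      exact h3.restrictScalars ℂ
    obtain ⟨k, hFF, r', -, hz, hr', hx⟩ := exists_slice hy hQ hc ⊥ h2
    exact ⟨r', hr'.mem hT, hr'.pos hDd hS ⟨s, hs, s₀, hs₀, rfl⟩ hz⟩

/-- **the contraction of `r` is a fibration**: some element is transcendental over `Kr` -/
theorem exists_fibre (hT : Gens y c T) (hy : NormalModel y) (hQ : QFactorial y)
    (hc : PicardBasis y c) {n : ℕ} (hn : Algebra.trdeg ℂ K = n)
    (hfib : ∀ r, Extremal y c r → ∃ D, Supports y c r D ∧ ¬ Big y n D)
    (hS : ∀ t ∈ T, Gen y t (S t)) (hr : Ray T (divClass y c) r) :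
    ∃ z : K, Transcendental (Kr (Sr c y T S r)) z := by
  obtain ⟨D, ⟨⟨hDd, SD, hSD⟩, h0, hmin⟩, hbig⟩ := hfib r (hT.ext_iff.2 hr)
  obtain ⟨z, hz⟩ := exists_transc hn hSD hbig
  have hsub : ∀ f ∈ rat (Sr c y T S r), f ∈ Kr SD := by
    intro f hf
    by_contra hcon
    have htr : Transcendental (Kr SD) f := fun h => hcon (Kr_alg h)
    obtain ⟨k, hFF, r', hk, hf', hr', hx⟩ := exists_slice hy hQ hc _ htr
    have h1 : r' (divClass y c D) = 0 := hr'.zero hDd hSD fun g hg =>
      isAlgebraic_algebraMap (⟨g, hk (rat_Kr hg)⟩ : k)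
    obtain ⟨t, ht, h2⟩ := hmin r' (hr'.mem_curve hT) h1
    have h3 := hr'.pos (Dr_isDiv hT) (gen_Sr hS) hf hf'
    have h4 := (supports hT hy hQ hc hS hr).2.1
    rw [h2, LinearMap.smul_apply, h4, smul_zero] at h3
    exact lt_irrefl _ h3
  have hle : IntermediateField.adjoin ℂ (rat (Sr c y T S r)) ≤ Kr SD := by
    rw [IntermediateField.adjoin_le_iff]
    exact hsub
  refine ⟨z, fun h => hz ?_⟩
  refine isAlg_mono (A := (Kr (Sr c y T S r)).toSubfield) (B := (Kr SD).toSubfield) ?_ h
  intro g hg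
  have hg' : g ∈ Kr (Sr c y T S r) := hg
  rw [mem_Kr] at hg'
  exact Kr_alg (isAlg_mono (A := (IntermediateField.adjoin ℂ (rat (Sr c y T S r))).toSubfield)
    (B := (Kr SD).toSubfield) hle hg')

/-- the form given by the fibres of the contraction of `r` -/
theorem exists_form_fibre (hT : Gens y c T) (hy : NormalModel y) (hQ : QFactorial y)
    (hc : PicardBasis y c) {n : ℕ} (hn : Algebra.trdeg ℂ K = n)
    (hfib : ∀ r, Extremal y c r → ∃ D, Supports y c r D ∧ ¬ Big y n D)
    (hS : ∀ t ∈ T, Gen y t (S t)) (hr : Ray T (divClass y c) r) :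
    ∃ (k : IntermediateField ℂ K) (_ : IsFF k K) (r' : Module.Dual ℝ (Fin ρ → ℝ)),
      Kr (Sr c y T S r) ≤ k ∧ IsForm k y c (RingHom.id K) r' ∧ ∃ s : ℝ, 0 < s ∧ r' = s • r := by
  obtain ⟨z, hz⟩ := exists_fibre hT hy hQ hc hn hfib hS hr
  obtain ⟨k, hFF, r', hk, hz', hr', hx⟩ := exists_slice hy hQ hc _ hz
  refine ⟨k, hFF, r', hk, hr', hr'.multiple hT hy hx hz' hr hS fun t ht h0 f hf => ?_⟩
  exact isAlgebraic_algebraMap (⟨f, hk (rat_Kr (rat_Sr hS ht h0 hf))⟩ : k)

/-- effective divisors are nef -/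
theorem eff_mem (hT : Gens y c T) (hy : NormalModel y) (hQ : QFactorial y)
    (hc : PicardBasis y c) {n : ℕ} (hn : Algebra.trdeg ℂ K = n)
    (hfib : ∀ r, Extremal y c r → ∃ D, Supports y c r D ∧ ¬ Big y n D)
    (hS : ∀ t ∈ T, Gen y t (S t)) {D : Place ℂ K → ℤ} (hD : IsDiv y D)
    (heff : ∀ P, IsPrimeDivisor y P → 0 ≤ D P) : divClass y c D ∈ Gcone T (divClass y c) := by
  refine mem_of_dual hT.closed (mink (hT.span hy hQ hc) fun r hr => ?_)
  obtain ⟨k, hFF, r', hk, hr', s, hs, rfl⟩ := exists_form_fibre hT hy hQ hc hn hfib hS hr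
  have h1 := hr'.eff D hD heff
  rw [LinearMap.smul_apply, smul_eq_mul] at h1
  exact nonneg_of_mul_nonneg_right h1 hs

/-- the extremal rays separate the points -/
theorem sep (hT : Gens y c T) (hy : NormalModel y) (hQ : QFactorial y)
    (hc : PicardBasis y c) (x : Fin ρ → ℝ) (hx : ∀ r, Ray T (divClass y c) r → r x = 0) :
    x = 0 := by
  have h1 : ∀ r ∈ NE T (divClass y c), r x = 0 := by
    intro r hr
    have e1 := mink (hT.span hy hQ hc) (x := x) (fun r hr => (hx r hr).ge) r hr
    have e2 := mink (hT.span hy hQ hc) (x := -x) (fun r hr => by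
      rw [map_neg, hx r hr, neg_zero]) r hr
    rw [map_neg] at e2
    linarith
  obtain ⟨a, ha, hax⟩ := mem_of_dual hT.closed (x := x) fun r hr => (h1 r hr).ge
  rw [hax]
  refine Finset.sum_eq_zero fun t ht => ?_
  by_cases hne : divClass y c t = 0
  · rw [hne, smul_zero]
  obtain ⟨r, hr, hpos⟩ := exists_pos hT hy hQ hc (hT.free t ht) hne
  have h2 := h1 r hr
  rw [hax, map_sum, Finset.sum_eq_zero_iff_of_nonneg fun t ht => by
    rw [map_smul, smul_eq_mul]
    exact mul_nonneg (ha t) (hr t ht)] at h2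
  have h3 := h2 t ht
  rw [map_smul, smul_eq_mul] at h3
  rw [(mul_eq_zero.1 h3).resolve_right hpos.ne', zero_smul]

/-- the divisor of the zeros of `f` -/
def zer (f : K) : Place ℂ K → ℤ := fun P => max (P.ord f) 0

theorem zer_isDiv (hy : NormalModel y) {f : K} (hf : f ≠ 0) : IsDiv y (zer f) := by
  refine (IsDiv.ord hy hf).subset ?_
  rintro P ⟨hP, h0⟩
  refine ⟨hP, fun h => h0 ?_⟩
  change P.ord f = 0 at h
  unfold zer
  rw [h, max_self]

/-- the divisor of the zeros of an element of `Kr` is zero on the ray -/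
theorem zer_zero (hT : Gens y c T) (hy : NormalModel y) (hQ : QFactorial y)
    (hc : PicardBasis y c) {n : ℕ} (hn : Algebra.trdeg ℂ K = n)
    (hfib : ∀ r, Extremal y c r → ∃ D, Supports y c r D ∧ ¬ Big y n D)
    (hS : ∀ t ∈ T, Gen y t (S t)) (hr : Ray T (divClass y c) r) {f : K} (hf0 : f ≠ 0)
    (hf : f ∈ Kr (Sr c y T S r)) : r (divClass y c (zer f)) = 0 := by
  obtain ⟨k, hFF, r', hk, hr', s, hs, rfl⟩ := exists_form_fibre hT hy hQ hc hn hfib hS hr
  have hD := zer_isDiv (y := y) hy hf0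
  obtain ⟨m, hm, l, -, S1, hS1⟩ := hQ _ hD
  obtain ⟨S2, hS2⟩ := (hyp_gen hy).nsmul l
  have hH : IsDiv y (l • hyp y) := (hyp_isDiv hy).nsmul l
  have e1 := hr'.eq ((hD.nsmul m).add hH) hS1
  have e2 := hr'.eq hH hS2
  have hx : Over k (RingHom.id K) := fun a => ⟨algebraMap ℂ k a, rfl⟩
  have hpol : pol k (RingHom.id K) S1 hS1.ne = pol k (RingHom.id K) S2 hS2.ne := by
    ext w
    rcases restrict hx w with h0 | ⟨Q, e, he, hQe⟩
    · rw [pol_trivial _ h0, pol_trivial _ h0]
    · have hQ0 : ∀ g ∈ Kr (Sr c y T S r), Q.ord g = 0 := by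
        intro g hg
        by_cases hg0 : g = 0
        · rw [hg0, Q.ord_zero]
        have h1 : w.ord g = 0 :=
          w.ord_eq_zero_of_isAlgebraic hg0 (isAlgebraic_algebraMap (⟨g, hk hg⟩ : k))
        have h2 := hQe g
        rw [RingHom.id_apply, h1] at h2
        have he0 : (e : ℤ) ≠ 0 := by exact_mod_cast (by omega : e ≠ 0)
        exact (mul_eq_zero.1 h2.symm).resolve_left he0
      have hP0 : ∀ P, IsPrimeDivisor y P → Through y P Q →
          (m • zer f + l • hyp y) P = (l • hyp y) P := by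
        intro P hP hPQ
        have h1 := ord_trivial hy (gen_Sr hS) hQ0 hP hPQ hf
        rw [Pi.add_apply, Pi.smul_apply]
        unfold zer
        rw [h1, max_self, smul_zero, zero_add]
      exact le_antisymm (pol_le_of hy hS1 hS2 hQe fun P hP hPQ => (hP0 P hP hPQ).le)
        (pol_le_of hy hS2 hS1 hQe fun P hP hPQ => (hP0 P hP hPQ).ge)
  rw [hpol, ← e2, divClass_add (hD.nsmul m) hH, map_add, add_eq_right, divClass_nsmul hD, map_smul,
    LinearMap.smul_apply, smul_eq_mul, smul_eq_mul] at e1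
  have hm0 : (m : ℝ) ≠ 0 := by positivity
  exact (mul_eq_zero.1 ((mul_eq_zero.1 e1).resolve_left hm0)).resolve_left hs.ne'

/-- the class of the divisor of the zeros of a nonconstant function is not zero -/
theorem zer_ne (hy : NormalModel y) (hQ : QFactorial y)
    (hc : PicardBasis y c) {f : K} (hf : Transcendental ℂ f) : divClass y c (zer f) ≠ 0 := by
  intro hcon
  have hf0 : f ≠ 0 := by
    rintro rfl
    exact hf isAlgebraic_zero
  have h2 : Transcendental (⊥ : IntermediateField ℂ K) f := by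
    intro h3
    apply hf
    have h4 : Algebra.IsAlgebraic ℂ (⊥ : IntermediateField ℂ K) := inferInstance
    exact h3.restrictScalars ℂ
  obtain ⟨k, hFF, r', -, hz, hr', hx⟩ := exists_slice hy hQ hc ⊥ h2
  have hD := zer_isDiv (y := y) hy hf0
  obtain ⟨m, hm, l, -, S1, hS1⟩ := hQ _ hD
  obtain ⟨S2, hS2⟩ := (hyp_gen hy).nsmul l
  have hH : IsDiv y (l • hyp y) := (hyp_isDiv hy).nsmul l
  have e1 := hr'.eq ((hD.nsmul m).add hH) hS1
  have e2 := hr'.eq hH hS2
  have hzinv : Transcendental k f⁻¹ := by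
    intro h
    apply hz
    simpa using h.inv
  have hle : pol k (RingHom.id K) S2 hS2.ne + polar (k := k) f⁻¹ ≤
      pol k (RingHom.id K) S1 hS1.ne := by
    classical
    intro w
    rw [Finsupp.add_apply, polar_apply, w.ord_inv, neg_neg]
    rcases restrict hx w with h0 | ⟨Q, e, he, hQe⟩
    · rw [pol_trivial _ h0, pol_trivial _ h0]
      have := h0 f
      rw [RingHom.id_apply] at this
      rw [this]
      simp
    · rcases le_total (w.ord f) 0 with hw | hw
      · rw [max_eq_right hw, add_zero]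
        refine pol_le_of hy hS2 hS1 hQe fun P hP hPQ => ?_
        rw [Pi.add_apply]
        have h3 : 0 ≤ (m • zer f) P := smul_nonneg (Nat.zero_le m) (le_max_right _ _)
        omega
      · rw [max_eq_left hw]
        have h3 := pol_le_of hy (hS2.shift (g := f) hf0) hS1 hQe fun P hP hPQ => by
          rw [Pi.add_apply, Pi.smul_apply]
          have h4 : P.ord f ≤ zer f P := le_max_left _ _
          have h5 : 0 ≤ zer f P := le_max_right _ _
          have h6 : zer f P ≤ m • zer f P := by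
            rw [nsmul_eq_mul]
            nlinarith [(by exact_mod_cast hm : (1 : ℤ) ≤ m)]
          change l • hyp y P + P.ord f ≤ m • zer f P + l • hyp y P
          omega
        rw [pol_shift hS2.ne (fun s hs => (hS2.sec s hs).1) hf0, Finsupp.add_apply,
          divisor_apply] at h3
        exact h3
  have h3 := ddeg_mono hle
  rw [ddeg_add, ddeg_polar hzinv] at h3
  have h4 : 0 < Module.finrank (IntermediateField.adjoin k {f⁻¹}) K := by
    have := IsFF.finite (K := K) hzinv
    exact Module.finrank_pos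
  have h5 : ddeg (pol k (RingHom.id K) S2 hS2.ne) < ddeg (pol k (RingHom.id K) S1 hS1.ne) := by
    omega
  rw [divClass_add (hD.nsmul m) hH, map_add, divClass_nsmul hD, hcon, smul_zero, map_zero,
    zero_add, e2] at e1
  have h6 : ddeg (pol k (RingHom.id K) S2 hS2.ne) = ddeg (pol k (RingHom.id K) S1 hS1.ne) := by
    exact_mod_cast e1
  omega

end

end Pool.Agent.L7h87.NC
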