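import Pool.Agent.L7h87.NC.Chain

/-!
Linear disjointness of the two ends of a long chain.
-/

set_option autoImplicit false
set_option linter.all false

open IntermediateField
open scoped TensorProduct

namespace Pool.Agent.L7h87.NC

section ld

variable {K Ω : Type} [Field K] [Field Ω] [Algebra ℂ K] [Algebra ℂ Ω] [Algebra K Ω]
  [IsScalarTower ℂ K Ω] {ι : Type} {M : ι → IntermediateField ℂ K}

/-- **Linear disjointness** (after Artin). -/
theorem artin {x : K →ₐ[ℂ] Ω} (hM : ∀ i f, IsAlgebraic (M i) f → f ∈ M i)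
    (hint : ∀ f, (∀ i, f ∈ M i) → ∃ a : ℂ, f = algebraMap ℂ K a)
    (hlift : ∀ i (D : Derivation (M i) K K), ∃ D' : Derivation K Ω Ω, ∀ f, D' (x f) = x (D f))
    {κ : Type} {v : κ → K} (hv : LinearIndependent ℂ v) (s : Finset κ) :
    ∀ b : κ → K, ∑ j ∈ s, x (b j) * algebraMap K Ω (v j) = 0 → ∀ j ∈ s, b j = 0 := by
  classical
  induction s using Finset.strongInduction with
  | H s ih =>
    intro b hb
    by_contra hcon
    push Not at hcon
    obtain ⟨j₀, hj₀, hne⟩ := hcon
    set b' : κ → K := fun j => b j / b j₀ with hb'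
    have hrel : ∑ j ∈ s, x (b' j) * algebraMap K Ω (v j) = 0 := by
      have h1 : ∑ j ∈ s, x (b' j) * algebraMap K Ω (v j) =
          (x (b j₀))⁻¹ * ∑ j ∈ s, x (b j) * algebraMap K Ω (v j) := by
        rw [Finset.mul_sum]
        refine Finset.sum_congr rfl fun j _ => ?_
        rw [hb']
        simp only [map_div₀]
        ring
      rw [h1, hb, mul_zero]
    have hone : b' j₀ = 1 := div_self hne
    -- the coefficients are constants
    have hconst : ∀ j ∈ s, ∃ a : ℂ, b' j = algebraMap ℂ K a := by
      intro j hj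
      apply hint
      intro i
      apply hM
      by_contra htr
      obtain ⟨D, hD⟩ := exists_der_ne (M i) htr
      obtain ⟨D', hD'⟩ := hlift i D
      have h1 := congrArg D' hrel
      rw [map_sum, map_zero] at h1
      have h2 : ∀ j, D' (x (b' j) * algebraMap K Ω (v j)) =
          x (D (b' j)) * algebraMap K Ω (v j) := by
        intro j
        rw [D'.leibniz, D'.map_algebraMap, hD', smul_zero, zero_add, smul_eq_mul, mul_comm]
      rw [Finset.sum_congr rfl fun j _ => h2 j, ← Finset.add_sum_erase _ _ hj₀, hone,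
        D.map_one_eq_zero, map_zero, zero_mul, zero_add] at h1
      have h3 := ih (s.erase j₀) (Finset.erase_ssubset hj₀) (fun j => D (b' j)) h1
      by_cases hjj : j = j₀
      · rw [hjj, hone, D.map_one_eq_zero] at hD
        exact hD rfl
      · exact hD (h3 j (Finset.mem_erase.2 ⟨hjj, hj⟩))
    choose! a ha using hconst
    have h4 : ∑ j ∈ s, a j • v j = 0 := by
      apply (algebraMap K Ω).injective
      rw [map_sum, map_zero, ← hrel]
      refine Finset.sum_congr rfl fun j hj => ?_
      rw [ha j hj, Algebra.smul_def, map_mul, x.commutes, ← IsScalarTower.algebraMap_apply]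
    have h5 := linearIndependent_iff'.1 hv s a h4 j₀ hj₀
    have h6 := ha j₀ hj₀
    rw [hone, h5, map_zero] at h6
    exact one_ne_zero h6

variable (x : K →ₐ[ℂ] Ω)

/-- the product map -/
noncomputable def Phi : K ⊗[ℂ] K →ₐ[K] Ω :=
  Algebra.TensorProduct.lift (Algebra.ofId K Ω) x fun _ _ => Commute.all _ _

theorem Phi_tmul (a b : K) : Phi x (a ⊗ₜ b) = algebraMap K Ω a * x b := by
  unfold Phi
  rw [Algebra.TensorProduct.lift_tmul]
  rfl

variable {x}

theorem Phi_inj (h : ∀ {κ : Type} {v : κ → K}, LinearIndependent ℂ v → ∀ (s : Finset κ)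
    (b : κ → K), ∑ j ∈ s, x (b j) * algebraMap K Ω (v j) = 0 → ∀ j ∈ s, b j = 0) :
    Function.Injective (Phi x) := by
  classical
  rw [injective_iff_map_eq_zero]
  intro T hT
  let bs := Module.Basis.ofVectorSpace ℂ K
  have h1 := (TensorProduct.equivFinsuppOfBasisLeft (N := K) bs).symm_apply_apply T
  rw [TensorProduct.equivFinsuppOfBasisLeft_symm_apply] at h1
  set β := TensorProduct.equivFinsuppOfBasisLeft (N := K) bs T with hβ
  rw [← h1, Finsupp.sum, map_sum] at hT
  have h2 := h bs.linearIndependent β.support (fun j => β j) (by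
    rw [← hT]
    refine Finset.sum_congr rfl fun j _ => ?_
    rw [Phi_tmul, mul_comm])
  have h3 : β = 0 := by
    ext j
    by_cases hj : j ∈ β.support
    · exact h2 j hj
    · simpa using hj
  rw [← h1, h3, Finsupp.sum_zero_index]

/-- contraction with a linear form -/
noncomputable def con (φ : K →ₗ[ℂ] ℂ) : K ⊗[ℂ] K →ₗ[ℂ] K :=
  (TensorProduct.lid ℂ K).toLinearMap.comp (LinearMap.rTensor K φ)

theorem con_tmul (φ : K →ₗ[ℂ] ℂ) (a b : K) : con φ (a ⊗ₜ b) = φ a • b := by
  simp [con]

theorem con_mul (φ : K →ₗ[ℂ] ℂ) (T : K ⊗[ℂ] K) (c : K) :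
    con φ (T * (1 ⊗ₜ c)) = con φ T * c := by
  induction T using TensorProduct.induction_on with
  | zero => rw [zero_mul, map_zero, zero_mul]
  | tmul a b => rw [Algebra.TensorProduct.tmul_mul_tmul, mul_one, con_tmul, con_tmul,
      smul_mul_assoc]
  | add S T hS hT => rw [add_mul, map_add, map_add, add_mul, hS, hT]

theorem con_mem (φ : K →ₗ[ℂ] ℂ) (M' : IntermediateField ℂ K) (τ : K ⊗[ℂ] M') :
    con φ (Algebra.TensorProduct.map (AlgHom.id K K) M'.val τ) ∈ M' := by
  induction τ using TensorProduct.induction_on with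
  | zero => rw [map_zero, map_zero]; exact zero_mem _
  | tmul a b =>
    rw [Algebra.TensorProduct.map_tmul, con_tmul]
    exact M'.smul_mem b.2
  | add S T hS hT => rw [map_add, map_add]; exact add_mem hS hT

theorem con_sep {T : K ⊗[ℂ] K} (h : ∀ φ : K →ₗ[ℂ] ℂ, con φ T = 0) : T = 0 := by
  classical
  let bs := Module.Basis.ofVectorSpace ℂ K
  have h1 := (TensorProduct.equivFinsuppOfBasisLeft (N := K) bs).symm_apply_apply T
  rw [TensorProduct.equivFinsuppOfBasisLeft_symm_apply] at h1
  set β := TensorProduct.equivFinsuppOfBasisLeft (N := K) bs T with hβ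
  have h3 : β = 0 := by
    ext j
    have h4 := h (bs.coord j)
    rw [← h1, Finsupp.sum, map_sum] at h4
    rw [Finset.sum_congr rfl fun i _ => con_tmul (bs.coord j) (bs i) (β i)] at h4
    by_cases hj : j ∈ β.support
    · rw [Finset.sum_eq_single j] at h4
      · simpa using h4
      · intro i _ hij
        simp [hij]
      · intro h5
        exact absurd hj h5
    · simpa using hj
  rw [← h1, h3, Finsupp.sum_zero_index]

/-- transcendental elements of `K` over a subfield `M'` stay transcendental over the compositum -/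
theorem transc (hinj : Function.Injective (Phi x)) (M' : IntermediateField ℂ K) {z : K}
    (hz : Transcendental M' z) :
    Transcendental (IntermediateField.adjoin K (x '' (M' : Set K))) (x z) := by
  classical
  intro halg
  have h1 : IsAlgebraic (Algebra.adjoin K (x '' (M' : Set K))) (x z) := by
    open scoped algebraAdjoinAdjoin in
    exact (IsFractionRing.isAlgebraic_iff (Algebra.adjoin K (x '' (M' : Set K)))
      (IntermediateField.adjoin K (x '' (M' : Set K))) Ω).2 halg
  obtain ⟨p, hp0, hp⟩ := h1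
  apply hp0
  -- the coefficients
  have hrange : Algebra.adjoin K (x '' (M' : Set K)) ≤
      ((Phi x).comp (Algebra.TensorProduct.map (AlgHom.id K K) M'.val)).range := by
    rw [Algebra.adjoin_le_iff]
    rintro _ ⟨b, hb, rfl⟩
    refine ⟨1 ⊗ₜ ⟨b, hb⟩, ?_⟩
    change Phi x (Algebra.TensorProduct.map (AlgHom.id K K) M'.val (1 ⊗ₜ ⟨b, hb⟩)) = x b
    rw [Algebra.TensorProduct.map_tmul, Phi_tmul, map_one, map_one, one_mul]
    rfl
  have hco : ∀ k : ℕ, ∃ τ : K ⊗[ℂ] M', Phi x (Algebra.TensorProduct.map (AlgHom.id K K) M'.val τ) =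
      ((p.coeff k : Algebra.adjoin K (x '' (M' : Set K))) : Ω) := by
    intro k
    exact hrange (p.coeff k).2
  choose τ hτ using hco
  set T : ℕ → K ⊗[ℂ] K := fun k => Algebra.TensorProduct.map (AlgHom.id K K) M'.val (τ k) with hT
  have hsum : ∑ k ∈ Finset.range (p.natDegree + 1), T k * (1 ⊗ₜ (z ^ k)) = 0 := by
    apply hinj
    rw [map_sum, map_zero, ← hp, Polynomial.aeval_eq_sum_range]
    refine Finset.sum_congr rfl fun k _ => ?_
    rw [map_mul, hτ, Phi_tmul, map_one, one_mul, map_pow]
    rfl
  have hzero : ∀ k ∈ Finset.range (p.natDegree + 1), T k = 0 := by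
    intro k hk
    apply con_sep
    intro φ
    have h2 := congrArg (con φ) hsum
    rw [map_sum, map_zero, Finset.sum_congr rfl fun k _ => con_mul φ (T k) (z ^ k)] at h2
    by_contra hne
    apply hz
    let q : Polynomial M' := ∑ k ∈ Finset.range (p.natDegree + 1),
      Polynomial.monomial k (⟨con φ (T k), con_mem φ M' (τ k)⟩ : M')
    have hq : ∀ l ∈ Finset.range (p.natDegree + 1),
        q.coeff l = (⟨con φ (T l), con_mem φ M' (τ l)⟩ : M') := by
      intro l hl
      simp only [q, Polynomial.finsetSum_coeff, Polynomial.coeff_monomial]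
      rw [Finset.sum_ite_eq' _ l]
      rw [if_pos hl]
    refine ⟨q, ?_, ?_⟩
    · intro hq0
      have h3 := hq k hk
      rw [hq0, Polynomial.coeff_zero] at h3
      exact hne (congrArg Subtype.val h3).symm
    · rw [map_sum, ← h2]
      refine Finset.sum_congr rfl fun k _ => ?_
      rw [Polynomial.aeval_monomial]
      rfl
  ext k
  rw [Polynomial.coeff_zero]
  by_cases hk : k ∈ Finset.range (p.natDegree + 1)
  · rw [← hτ k]
    change Phi x (T k) = _
    rw [hzero k hk, map_zero]
    rfl
  · rw [Finset.mem_range, not_lt] at hk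
    rw [Polynomial.coeff_eq_zero_of_natDegree_lt (by omega)]

end ld

end Pool.Agent.L7h87.NC
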