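import Pool.Agent.L7h87.NC.Eff
import Pool.Agent.L7h87.NC.Ld

/-!
The intersection of the function fields of the bases of some extremal contractions.
-/

set_option autoImplicit false
set_option linter.all false

open FF Pool.Agent.Y172 Pool.Agent.N110 Pool.Agent.N110.CC IntermediateField
open Pool.Agent.L7h87.NC.Cvx

namespace Pool.Agent.L7h87.NC

section res

variable {K Ω : Type} [Field K] [Field Ω] [Algebra ℂ K] [Algebra ℂ Ω]

/-- a point with coordinates in the subfield `E` -/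
noncomputable def res (x : K →ₐ[ℂ] Ω) (E : IntermediateField ℂ Ω) (h : ∀ f, x f ∈ E) : K →+* E :=
  (x : K →+* Ω).codRestrict E h

theorem res_over (x : K →ₐ[ℂ] Ω) (E : IntermediateField ℂ Ω) (h : ∀ f, x f ∈ E)
    (k : IntermediateField ℂ E) : Over k (res x E h) := by
  intro a
  refine ⟨algebraMap ℂ k a, ?_⟩
  apply Subtype.ext
  change x (algebraMap ℂ K a) = algebraMap ℂ Ω a
  exact x.commutes a

end res

section

variable {K : Type} [Field K] [Algebra ℂ K] {N ρ : ℕ} {y : Fin (N + 1) → K}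
  {c : Place ℂ K → Fin ρ → ℤ} {T : Finset (Place ℂ K → ℤ)}
  {S : (Place ℂ K → ℤ) → Finset K}
variable {Ω : Type} [Field Ω] [Algebra ℂ Ω]

/-- two points have the same height with respect to `L` -/
def Same (y : Fin (N + 1) → K) (c : Place ℂ K → Fin ρ → ℤ) (L : Fin ρ → ℝ)
    (x x' : K →ₐ[ℂ] Ω) : Prop :=
  ∃ (E₀ : IntermediateField ℂ Ω) (h : ∀ f, x f ∈ E₀) (h' : ∀ f, x' f ∈ E₀), E₀.FG ∧
    ∀ (E : IntermediateField ℂ Ω) (hE : E₀ ≤ E) (k : IntermediateField ℂ E) (_ : IsFF k E)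
      (r r' : Module.Dual ℝ (Fin ρ → ℝ)), IsForm k y c (res x E fun f => hE (h f)) r →
      IsForm k y c (res x' E fun f => hE (h' f)) r' → r L = r' L

theorem same_refl [Algebra.EssFiniteType ℂ K] (hT : Gens y c T) (hy : NormalModel y)
    (hQ : QFactorial y) (hc : PicardBasis y c) (L : Fin ρ → ℝ) (x : K →ₐ[ℂ] Ω) :
    Same y c L x x := by
  refine ⟨x.fieldRange, fun f => ⟨f, rfl⟩, fun f => ⟨f, rfl⟩, fg_range x, ?_⟩
  intro E hE k hFF r r' hr hr'
  have h1 : r - r' = 0 := by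
    refine hT.span hy hQ hc _ fun t ht => ?_
    obtain ⟨hd, S, hS⟩ := hT.free t ht
    rw [LinearMap.sub_apply, hr.agree hr' hd hS fun f _ => rfl, sub_self]
  rw [sub_eq_zero.1 h1]

theorem same_trans (hy : NormalModel y) (hQ : QFactorial y) (hc : PicardBasis y c)
    {L : Fin ρ → ℝ} {x x' x'' : K →ₐ[ℂ] Ω} (h₁ : Same y c L x x') (h₂ : Same y c L x' x'') :
    Same y c L x x'' := by
  obtain ⟨E₁, a₁, b₁, hf₁, H₁⟩ := h₁
  obtain ⟨E₂, a₂, b₂, hf₂, H₂⟩ := h₂
  refine ⟨E₁ ⊔ E₂, fun f => (le_sup_left : E₁ ≤ _) (a₁ f), fun f => (le_sup_right : E₂ ≤ _) (b₂ f),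
    IntermediateField.fg_sup hf₁ hf₂, ?_⟩
  intro E hE k hFF r r'' hr hr''
  have hE₁ : E₁ ≤ E := le_sup_left.trans hE
  have hE₂ : E₂ ≤ E := le_sup_right.trans hE
  obtain ⟨r', hr'⟩ := exists_isForm (k := k) (x := res x' E fun f => hE₁ (b₁ f)) hy hQ
    (res_over _ _ _ _) hc
  rw [H₁ E hE₁ k hFF r r' hr hr', H₂ E hE₂ k hFF r' r'' hr' hr'']

theorem same_adj [Algebra.EssFiniteType ℂ K] (hT : Gens y c T) (hS : ∀ t ∈ T, Gen y t (S t))
    {κ : Type} {rr : κ → Module.Dual ℝ (Fin ρ → ℝ)} (hrr : ∀ i, Ray T (divClass y c) (rr i))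
    {L : Fin ρ → ℝ} (hL : ∀ i, rr i L = 0) {x x' : K →ₐ[ℂ] Ω}
    (h : Adj (fun i => Kr (Sr c y T S (rr i))) x x') : Same y c L x x' := by
  obtain ⟨i, hi⟩ := h
  refine ⟨x.fieldRange ⊔ x'.fieldRange, fun f => (le_sup_left : x.fieldRange ≤ _) ⟨f, rfl⟩,
    fun f => (le_sup_right : x'.fieldRange ≤ _) ⟨f, rfl⟩,
    IntermediateField.fg_sup (fg_range x) (fg_range x'), ?_⟩
  intro E hE k hFF r r' hr hr'
  obtain ⟨s, hs⟩ := mult (hrr i) (φ := r - r') fun t ht h0 => by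
    rw [LinearMap.sub_apply, hr.agree hr' (hT.free t ht).1 (hS t ht) fun f hf => ?_, sub_self]
    apply Subtype.ext
    exact hi f (rat_Kr (rat_Sr hS ht h0 hf))
  have h1 := congrArg (fun φ : Module.Dual ℝ (Fin ρ → ℝ) => φ L) hs
  simp only [LinearMap.sub_apply, LinearMap.smul_apply, hL i, smul_zero] at h1
  linarith

theorem same_chain [Algebra.EssFiniteType ℂ K] (hT : Gens y c T) (hy : NormalModel y)
    (hQ : QFactorial y) (hc : PicardBasis y c) (hS : ∀ t ∈ T, Gen y t (S t))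
    {κ : Type} {rr : κ → Module.Dual ℝ (Fin ρ → ℝ)} (hrr : ∀ i, Ray T (divClass y c) (rr i))
    {L : Fin ρ → ℝ} (hL : ∀ i, rr i L = 0) {x x' : K →ₐ[ℂ] Ω}
    (h : Relation.ReflTransGen (Adj (fun i => Kr (Sr c y T S (rr i)))) x x') :
    Same y c L x x' := by
  induction h with
  | refl => exact same_refl hT hy hQ hc L x
  | tail _ hadj ih => exact same_trans hy hQ hc ih (same_adj hT hS hrr hL hadj)

/-- **The key statement.** -/
theorem inter_trivial [Algebra K Ω] [IsScalarTower ℂ K Ω] [IsAlgClosed Ω]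
    (hΩ : Cardinal.aleph0 ≤ Algebra.trdeg ℂ Ω) (hT : Gens y c T) (hy : NormalModel y)
    (hQ : QFactorial y) (hc : PicardBasis y c) {n : ℕ} (hn : Algebra.trdeg ℂ K = n)
    (hfib : ∀ r, Extremal y c r → ∃ D, Supports y c r D ∧ ¬ Big y n D)
    (hS : ∀ t ∈ T, Gen y t (S t))
    {κ : Type} {rr : κ → Module.Dual ℝ (Fin ρ → ℝ)} (hrr : ∀ i, Ray T (divClass y c) (rr i))
    (hint : ∀ f, (∀ i, f ∈ Kr (Sr c y T S (rr i))) → ∃ a : ℂ, f = algebraMap ℂ K a)
    {L : Fin ρ → ℝ} (hL : ∀ i, rr i L = 0) : L = 0 := by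
  have := essK hy
  refine sep hT hy hQ hc L fun r hr => ?_
  obtain ⟨x, hx, hlift⟩ := exists_generic (Ω := Ω) hΩ hn fun i => Kr (Sr c y T S (rr i))
  have hinj : Function.Injective (Phi x) := Phi_inj fun hv s =>
    artin (fun i f hf => Kr_alg hf) hint hlift hv s
  obtain ⟨E₀, h₀, h₁, hfg, H⟩ := same_chain hT hy hQ hc hS hrr hL hx
  obtain ⟨z, hz⟩ := exists_fibre hT hy hQ hc hn hfib hS hr
  have htr := transc hinj _ hz
  have hess : Algebra.EssFiniteType ℂ E₀ := IntermediateField.essFiniteType_iff.2 hfg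
  -- the subfield of the elements of the compositum
  let A : IntermediateField K Ω :=
    IntermediateField.adjoin K (x '' (Kr (Sr c y T S r) : Set K))
  let E₁ : IntermediateField ℂ E₀ := (A.restrictScalars ℂ).comap E₀.val
  have hE₁ : ∀ a : E₀, a ∈ E₁ ↔ (a : Ω) ∈ A := fun a => Iff.rfl
  have hz₁ : Transcendental E₁ (⟨x z, h₁ z⟩ : E₀) := by
    intro halg
    apply htr
    exact isAlg_map (E₀.val : E₀ →+* Ω) (Z := E₁.toSubfield) (W := A.toSubfield)
      (fun a ha => (hE₁ a).1 ha) halg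
  obtain ⟨k, hk, hFF, hzk⟩ := slice E₁ hz₁
  obtain ⟨r₀, hr₀⟩ := exists_isForm (k := k)
    (x := res (IsScalarTower.toAlgHom ℂ K Ω) E₀ h₀) hy hQ (res_over _ _ _ _) hc
  obtain ⟨r₁, hr₁⟩ := exists_isForm (k := k) (x := res x E₀ h₁) hy hQ (res_over _ _ _ _) hc
  have e1 := H E₀ le_rfl k hFF r₀ r₁ hr₀ hr₁
  -- the first form is zero
  have e2 : r₀ = 0 := by
    refine hT.span hy hQ hc _ fun t ht => ?_
    refine hr₀.zero (hT.free t ht).1 (hS t ht) fun f _ => ?_
    have h2 : res (IsScalarTower.toAlgHom ℂ K Ω) E₀ h₀ f ∈ k := by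
      apply hk
      rw [hE₁]
      exact A.algebraMap_mem f
    exact isAlgebraic_algebraMap (⟨_, h2⟩ : k)
  -- the second form is a multiple of `r`
  obtain ⟨s, hs, e3⟩ := hr₁.multiple hT hy (res_over _ _ _ _) hzk hr hS fun t ht h0 f hf => by
    have h2 : res x E₀ h₁ f ∈ k := by
      apply hk
      rw [hE₁]
      exact IntermediateField.subset_adjoin _ _ ⟨f, rat_Kr (rat_Sr hS ht h0 hf), rfl⟩
    exact isAlgebraic_algebraMap (⟨_, h2⟩ : k)
  rw [e2, e3, LinearMap.zero_apply, LinearMap.smul_apply, smul_eq_mul] at e1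
  exact (mul_eq_zero.1 e1.symm).resolve_left hs.ne'

/-- large fields -/
theorem exists_large (K : Type) [Field K] [Algebra ℂ K] :
    ∃ (Ω : Type) (_ : Field Ω) (_ : Algebra ℂ Ω) (_ : Algebra K Ω) (_ : IsScalarTower ℂ K Ω)
      (_ : IsAlgClosed Ω), Cardinal.aleph0 ≤ Algebra.trdeg ℂ Ω := by
  have key : ∀ (F₁ Ω : Type) [Field F₁] [Algebra K F₁] [Field Ω] [Algebra F₁ Ω] [IsAlgClosed Ω]
      (X : ℕ → F₁), AlgebraicIndependent K X →
      ∃ (Ω : Type) (_ : Field Ω) (_ : Algebra ℂ Ω) (_ : Algebra K Ω) (_ : IsScalarTower ℂ K Ω)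
      (_ : IsAlgClosed Ω), Cardinal.aleph0 ≤ Algebra.trdeg ℂ Ω := by
    intro F₁ Ω _ _ _ _ _ X hX
    let a₁ : Algebra K Ω := ((algebraMap F₁ Ω).comp (algebraMap K F₁)).toAlgebra
    let a₂ : Algebra ℂ Ω := ((algebraMap F₁ Ω).comp ((algebraMap K F₁).comp
      (algebraMap ℂ K))).toAlgebra
    have h1 : IsScalarTower ℂ K Ω := IsScalarTower.of_algebraMap_eq fun _ => rfl
    refine ⟨Ω, inferInstance, a₂, a₁, h1, inferInstance, ?_⟩
    let g : F₁ →ₐ[K] Ω := { algebraMap F₁ Ω with commutes' := fun _ => rfl }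
    have h3 : AlgebraicIndependent K (g ∘ X) := hX.map' (f := g) (algebraMap F₁ Ω).injective
    have h4 : AlgebraicIndependent ℂ (g ∘ X) :=
      h3.restrictScalars (R := ℂ) (algebraMap ℂ K).injective
    have h5 := h4.cardinalMk_le_trdeg
    rwa [Cardinal.mk_nat] at h5
  refine key (FractionRing (MvPolynomial ℕ K)) (AlgebraicClosure (FractionRing (MvPolynomial ℕ K)))
    (fun i => algebraMap (MvPolynomial ℕ K) (FractionRing (MvPolynomial ℕ K))
      (MvPolynomial.X i)) ?_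
  have h2 := MvPolynomial.algebraicIndependent_X ℕ K
  exact h2.map' (f := IsScalarTower.toAlgHom K (MvPolynomial ℕ K)
    (FractionRing (MvPolynomial ℕ K)))
    (IsFractionRing.injective (MvPolynomial ℕ K) (FractionRing (MvPolynomial ℕ K)))

/-- **Nef cones of varieties whose extremal contractions are fibrations.** -/
theorem simplicial (hy : NormalModel y) {n : ℕ} (hn : Algebra.trdeg ℂ K = n)
    (hc : PicardBasis y c) (hQ : QFactorial y) (hpoly : NefPolyhedral y c)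
    (hfib : ∀ r, Extremal y c r → ∃ D, Supports y c r D ∧ ¬ Big y n D) :
    Simplicial (nefCone y c) := by
  classical
  obtain ⟨T, hT⟩ := hpoly.gens
  obtain ⟨Ω, i₁, i₂, i₃, i₄, i₅, hΩ⟩ := exists_large K
  have hfree : ∀ t, ∃ S : Finset K, t ∈ T → Gen y t S := by
    intro t
    by_cases ht : t ∈ T
    · obtain ⟨-, S, hS⟩ := hT.free t ht
      exact ⟨S, fun _ => hS⟩
    · exact ⟨∅, fun h => absurd h ht⟩
  choose S hS using hfree
  unfold Simplicial
  rw [hT.cone]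
  refine simplicial_of (sep hT hy hQ hc) fun r l hr hli => ?_
  have hex : ∃ f : K, (∀ j : {j // j ≠ l}, f ∈ Kr (Sr c y T S (r j))) ∧
      ¬ ∃ a : ℂ, f = algebraMap ℂ K a := by
    by_contra hcon
    push Not at hcon
    have h1 : ∀ L : Fin ρ → ℝ, (∀ j : {j // j ≠ l}, r j L = 0) → L = 0 := fun L hL =>
      inter_trivial (Ω := Ω) (rr := fun j : {j // j ≠ l} => r j) hΩ hT hy hQ hc hn hfib
        (fun t ht => hS t ht) (fun j => hr j) hcon hL
    have h2 : r l ∈ Submodule.span ℝ (Set.range fun j : {j // j ≠ l} => r j) := by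
      refine mem_span_of_iInf_ker_le_ker ?_
      intro L hL
      rw [Submodule.mem_iInf] at hL
      rw [h1 L fun j => LinearMap.mem_ker.1 (hL j)]
      exact zero_mem _
    have h3 := hli.notMem_span_image (s := {l}ᶜ) (x := l) (by simp)
    apply h3
    have h4 : (Set.range fun j : {j // j ≠ l} => r j) = r '' {l}ᶜ := by
      ext φ
      constructor
      · rintro ⟨j, rfl⟩
        exact ⟨j, j.2, rfl⟩
      · rintro ⟨j, hj, rfl⟩
        exact ⟨⟨j, hj⟩, rfl⟩
    rwa [h4] at h2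
  obtain ⟨f, hf, hfc⟩ := hex
  have hftr : Transcendental ℂ f := fun h => hfc (Pool.Agent.W602.GT.const_of_algebraic h)
  have hf0 : f ≠ 0 := by
    rintro rfl
    exact hftr isAlgebraic_zero
  exact ⟨divClass y c (zer f),
    eff_mem hT hy hQ hc hn hfib hS (zer_isDiv hy hf0) (fun P _ => le_max_right _ _),
    zer_ne hy hQ hc hftr,
    fun j hj => zer_zero hT hy hQ hc hn hfib hS (hr j) hf0 (hf ⟨j, hj⟩)⟩

end

end Pool.Agent.L7h87.NC
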