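import Pool.Agent.L7h87.NC.Kr
import Pool.Agent.L7h87.NC.Cvx

/-!
The linear forms on `N¹(X)` given by the heights of points over function fields of one variable.
-/

set_option autoImplicit false
set_option linter.all false

open FF Pool.Agent.Y172 Pool.Agent.N110 Pool.Agent.N110.CC IntermediateField
open Pool.Agent.L7h87.NC.Cvx

namespace Pool.Agent.L7h87.NC

section cone

variable {K : Type} [Field K] [Algebra ℂ K] {N ρ : ℕ} {y : Fin (N + 1) → K}
  {c : Place ℂ K → Fin ρ → ℤ}

/-- `T` consists of base point free divisors, and their classes generate the nef cone -/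
structure Gens (y : Fin (N + 1) → K) (c : Place ℂ K → Fin ρ → ℤ)
    (T : Finset (Place ℂ K → ℤ)) : Prop where
  free : ∀ D ∈ T, Free y D
  cone : nefCone y c = Gcone T (divClass y c)

theorem _root_.Pool.Agent.L7h87.NC.NefPolyhedral.gens (h : NefPolyhedral y c) :
    ∃ T, Gens y c T := by
  obtain ⟨T, h1, h2⟩ := h
  exact ⟨T, h1, h2⟩

variable {T : Finset (Place ℂ K → ℤ)}

theorem Gens.curve (hT : Gens y c T) : curveCone y c = NE T (divClass y c) := by
  ext r
  constructor
  · intro h t ht
    refine h _ ?_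
    rw [hT.cone]
    exact Gcone.mem ht
  · intro h x hx
    rw [hT.cone] at hx
    exact nonneg_of_mem h hx

theorem Gens.ext_iff (hT : Gens y c T) {r : Module.Dual ℝ (Fin ρ → ℝ)} :
    Extremal y c r ↔ Ray T (divClass y c) r := by
  unfold Extremal Ray
  rw [hT.curve]

theorem Gens.closed (hT : Gens y c T) : IsClosed (Gcone T (divClass y c)) := by
  rw [← hT.cone]
  exact isClosed_closure

theorem free_mem {D : Place ℂ K → ℤ} (hD : Free y D) : divClass y c D ∈ nefCone y c := by
  classical
  apply subset_closure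
  refine ⟨{divClass y c D}, ?_, fun _ => 1, fun _ => zero_le_one, ?_⟩
  · rw [Finset.coe_singleton, Set.singleton_subset_iff]
    exact ⟨D, hD, rfl⟩
  · rw [Finset.sum_singleton, one_smul]

theorem hyp_free (hy : NormalModel y) : Free y (hyp y) := ⟨hyp_isDiv hy, _, hyp_gen hy⟩

theorem Gens.span (hT : Gens y c T) (hy : NormalModel y) (hQ : QFactorial y)
    (hc : PicardBasis y c) (φ : Module.Dual ℝ (Fin ρ → ℝ))
    (hφ : ∀ t ∈ T, φ (divClass y c t) = 0) : φ = 0 := by
  classical
  have h1 : ∀ D, Free y D → φ (divClass y c D) = 0 := by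
    intro D hD
    have h2 := free_mem (c := c) hD
    rw [hT.cone] at h2
    obtain ⟨a, -, h3⟩ := h2
    rw [h3, map_sum]
    refine Finset.sum_eq_zero fun t ht => ?_
    rw [map_smul, hφ t ht, smul_zero]
  have h2 : ∀ D, IsDiv y D → φ (divClass y c D) = 0 := by
    intro D hD
    obtain ⟨m, hm, k, hf⟩ := hQ D hD
    have h3 := h1 _ hf
    rw [divClass_add (hD.nsmul m) ((hyp_isDiv hy).nsmul k), divClass_nsmul hD,
      divClass_nsmul (hyp_isDiv hy), map_add, map_smul, map_smul, h1 _ (hyp_free hy), smul_zero,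
      add_zero, smul_eq_mul] at h3
    have hm0 : (m : ℝ) ≠ 0 := by positivity
    exact (mul_eq_zero.1 h3).resolve_left hm0
  have h3 : ∀ v : Fin ρ → ℤ, φ (fun j => (v j : ℝ)) = 0 := by
    intro v
    have h4 := hc.generate v
    induction h4 using AddSubgroup.closure_induction with
    | mem z hz =>
      obtain ⟨P, hP, rfl⟩ := hz
      have h5 := h2 (fun Q => if Q = P then 1 else 0) (by
        refine (Set.finite_singleton P).subset ?_
        rintro Q ⟨-, h⟩
        by_contra hne
        exact h (if_neg hne))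
      rw [divClass_finset (S := {P}) (by simpa using hP) (fun Q _ h => by
          by_contra hne
          rw [Finset.mem_singleton] at hne
          exact h (if_neg hne)), Finset.sum_singleton, if_pos rfl, Int.cast_one, one_smul] at h5
      exact h5
    | zero =>
      have : (fun j : Fin ρ => (((0 : Fin ρ → ℤ) j : ℤ) : ℝ)) = 0 := by
        funext j; simp
      rw [this, map_zero]
    | add a b _ _ ha hb =>
      have : (fun j : Fin ρ => (((a + b) j : ℤ) : ℝ)) =
          (fun j => (a j : ℝ)) + fun j => (b j : ℝ) := by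
        funext j; simp
      rw [this, map_add, ha, hb, add_zero]
    | neg a _ ha =>
      have : (fun j : Fin ρ => (((-a) j : ℤ) : ℝ)) = - fun j => (a j : ℝ) := by
        funext j; simp
      rw [this, map_neg, ha, neg_zero]
  refine LinearMap.pi_ext' fun j => ?_
  ext
  have h4 := h3 (Pi.single j 1)
  have h5 : (fun i : Fin ρ => (((Pi.single j 1 : Fin ρ → ℤ) i : ℤ) : ℝ)) = Pi.single j 1 := by
    funext i
    by_cases hij : i = j
    · subst hij; simp
    · simp [Pi.single_apply, hij]
  rw [h5] at h4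
  simpa using h4

end cone

section form

variable {K : Type} [Field K] [Algebra ℂ K] {N ρ : ℕ} {y : Fin (N + 1) → K}
  {c : Place ℂ K → Fin ρ → ℤ}
variable {k F : Type} [Field k] [Field F] [Algebra k F] [CharZero k] [IsFF k F]

/-- the values of `r` at the classes of the divisors are the heights of the point `x` -/
structure IsForm (k : Type) {K F : Type} [Field K] [Algebra ℂ K] [Field k] [Field F] [Algebra k F]
    [CharZero k] [IsFF k F] {N ρ : ℕ} (y : Fin (N + 1) → K) (c : Place ℂ K → Fin ρ → ℤ)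
    (x : K →+* F) (r : Module.Dual ℝ (Fin ρ → ℝ)) : Prop where
  has : ∀ (D : Place ℂ K → ℤ) (h : ℤ), IsDiv y D → Has k y x D h → r (divClass y c D) = h
  eff : ∀ D : Place ℂ K → ℤ, IsDiv y D → (∀ P, IsPrimeDivisor y P → 0 ≤ D P) →
    0 ≤ r (divClass y c D)

variable {x x' : K →+* F} {r r' : Module.Dual ℝ (Fin ρ → ℝ)} {T : Finset (Place ℂ K → ℤ)}

theorem exists_isForm (hy : NormalModel y) (hQ : QFactorial y) (hx : Over k x)
    (hc : PicardBasis y c) : ∃ r : Module.Dual ℝ (Fin ρ → ℝ), IsForm k y c x r := by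
  obtain ⟨r, h1, h2⟩ := exists_form hy hQ hx hc
  exact ⟨r, h1, h2⟩

theorem IsForm.eq (h : IsForm k y c x r) {D : Place ℂ K → ℤ} (hD : IsDiv y D) {S : Finset K}
    (hS : Gen y D S) : r (divClass y c D) = (ddeg (pol k x S hS.ne) : ℤ) :=
  h.has D _ hD ⟨S, hS, rfl⟩

theorem IsForm.mem (h : IsForm k y c x r) (hT : Gens y c T) : r ∈ NE T (divClass y c) := by
  intro t ht
  obtain ⟨hd, S, hS⟩ := hT.free t ht
  rw [h.eq hd hS]
  exact_mod_cast ddeg_pol_nonneg hS.ne

theorem IsForm.mem_curve (h : IsForm k y c x r) (hT : Gens y c T) : r ∈ curveCone y c := by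
  rw [hT.curve]
  exact h.mem hT

theorem IsForm.zero (h : IsForm k y c x r) {D : Place ℂ K → ℤ} (hD : IsDiv y D) {S : Finset K}
    (hS : Gen y D S) (hr : ∀ f ∈ rat S, IsAlgebraic k (x f)) : r (divClass y c D) = 0 := by
  rw [h.eq hD hS, ddeg_pol_eq_zero hS.ne (fun s hs => (hS.sec s hs).1), Int.cast_zero]
  intro s hs t ht w
  have h1 : x (s / t) ≠ 0 :=
    (map_ne_zero x).2 (div_ne_zero (hS.sec s hs).1 (hS.sec t ht).1)
  exact w.ord_eq_zero_of_isAlgebraic h1 (hr _ ⟨s, hs, t, ht, rfl⟩)

theorem IsForm.pos (h : IsForm k y c x r) {D : Place ℂ K → ℤ} (hD : IsDiv y D) {S : Finset K}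
    (hS : Gen y D S) {f : K} (hf : f ∈ rat S) (hr : Transcendental k (x f)) :
    0 < r (divClass y c D) := by
  obtain ⟨s, hs, t, ht, rfl⟩ := hf
  rw [h.eq hD hS]
  exact_mod_cast ddeg_pol_pos hS.ne (fun s hs => (hS.sec s hs).1) hs ht hr

theorem IsForm.agree (h : IsForm k y c x r) (h' : IsForm k y c x' r') {D : Place ℂ K → ℤ}
    (hD : IsDiv y D) {S : Finset K} (hS : Gen y D S) (hr : ∀ f ∈ rat S, x f = x' f) :
    r (divClass y c D) = r' (divClass y c D) := by
  rw [h.eq hD hS, h'.eq hD hS]
  congr 1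
  exact ddeg_pol_eq hS.ne (fun s hs => (hS.sec s hs).1) fun s hs t ht => hr _ ⟨s, hs, t, ht, rfl⟩

/-- if the point is not constant then some quotient of the coordinates is not constant -/
theorem exists_coord (hy : NormalModel y) (hx : Over k x) {z : K} (hz : Transcendental k (x z)) :
    ∃ f ∈ rat (coords y), Transcendental k (x f) := by
  classical
  by_contra hcon
  push Not at hcon
  obtain ⟨j, hj⟩ := hy.ne
  let M : IntermediateField ℂ K :=
    { (algebraicClosure k F).toSubfield.comap x with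
      algebraMap_mem' := by
        intro a
        obtain ⟨b, hb⟩ := hx a
        change x (algebraMap ℂ K a) ∈ algebraicClosure k F
        rw [hb]
        exact (algebraicClosure k F).algebraMap_mem b }
  have hM : ∀ f, f ∈ M ↔ IsAlgebraic k (x f) := fun f => mem_algebraicClosure_iff
  have h1 : IntermediateField.adjoin ℂ (Set.range fun i => y i / y j) ≤ M := by
    rw [IntermediateField.adjoin_le_iff]
    rintro _ ⟨i, rfl⟩
    change y i / y j ∈ M
    rw [hM]
    by_cases hi : y i = 0
    · rw [hi, zero_div, map_zero]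
      exact isAlgebraic_zero
    · have h2 := hcon (y i / y j) ⟨y i, mem_coords.2 ⟨i, hi, rfl⟩, y j, mem_coords.2 ⟨j, hj, rfl⟩, rfl⟩
      rwa [Transcendental, not_not] at h2
  rw [hy.field j hj, top_le_iff] at h1
  apply hz
  rw [← hM, h1]
  exact IntermediateField.mem_top

theorem IsForm.ne_zero (h : IsForm k y c x r) (hy : NormalModel y) (hx : Over k x) {z : K}
    (hz : Transcendental k (x z)) : 0 < r (divClass y c (hyp y)) := by
  obtain ⟨f, hf, hf'⟩ := exists_coord hy hx hz
  exact h.pos (hyp_isDiv hy) (hyp_gen hy) hf hf'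

/-- the form is a positive multiple of `r` if `x` is constant along the contraction of `r` -/
theorem IsForm.multiple (h : IsForm k y c x r) (hT : Gens y c T) (hy : NormalModel y)
    (hx : Over k x) {z : K} (hz : Transcendental k (x z)) (hr' : Ray T (divClass y c) r')
    {S : (Place ℂ K → ℤ) → Finset K} (hS : ∀ t ∈ T, Gen y t (S t))
    (hc : ∀ t ∈ T, r' (divClass y c t) = 0 → ∀ f ∈ rat (S t), IsAlgebraic k (x f)) :
    ∃ s : ℝ, 0 < s ∧ r = s • r' := by
  obtain ⟨s, hs⟩ := mult hr' (φ := r) fun t ht h0 => h.zero (hT.free t ht).1 (hS t ht) (hc t ht h0)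
  refine ⟨s, ?_, hs⟩
  have h1 := h.ne_zero hy hx hz
  have h2 : 0 ≤ r' (divClass y c (hyp y)) := by
    have h3 := hr'.1
    rw [← hT.curve] at h3
    exact h3 _ (free_mem (hyp_free hy))
  rw [hs, LinearMap.smul_apply, smul_eq_mul] at h1
  by_contra hneg
  push Not at hneg
  have := mul_nonpos_of_nonpos_of_nonneg hneg h2
  linarith

end form

end Pool.Agent.L7h87.NC
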