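import Pool.Agent.Helper386.D5V.Helper386_FF_RR

/-!
Function fields of one variable inside finitely generated fields.
-/

set_option autoImplicit false
set_option linter.all false

open FF IntermediateField

namespace Pool.Agent.L7h87.NC

theorem isAlg_mono {E : Type*} [Field E] {A B : Subfield E} (h : A ≤ B) {x : E}
    (hx : IsAlgebraic A x) : IsAlgebraic B x := by
  let _ : Algebra A B := (Subfield.inclusion h).toAlgebra
  have : IsScalarTower A B E := IsScalarTower.of_algebraMap_eq fun _ => rfl
  exact hx.extendScalars (Subfield.inclusion h).injective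

theorem slice {E : Type} [Field E] [Algebra ℂ E] [Algebra.EssFiniteType ℂ E]
    (E₁ : IntermediateField ℂ E) {z : E} (hz : Transcendental E₁ z) :
    ∃ k₂ : IntermediateField ℂ E, E₁ ≤ k₂ ∧ IsFF k₂ E ∧ Transcendental k₂ z := by
  classical
  have h1 : AlgebraicIndepOn E₁ id ({z} : Set E) := by
    rw [AlgebraicIndepOn, algebraicIndependent_unique_type_iff]
    exact hz
  obtain ⟨X, hzX, hX⟩ := exists_isTranscendenceBasis_superset h1
  rw [Set.singleton_subset_iff] at hzX
  let k' : IntermediateField E₁ E := IntermediateField.adjoin E₁ (X \ {z})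
  have hzk' : Transcendental k' z := by
    have h2 : AlgebraicIndepOn E₁ id (insert z (X \ {z})) := by
      rw [Set.insert_diff_singleton, Set.insert_eq_of_mem hzX]
      exact hX.1
    have h3 := ((AlgebraicIndepOn.insert_iff (by simp)).1 h2).2
    rw [Set.image_id, id] at h3
    intro h5
    apply h3
    open scoped algebraAdjoinAdjoin in
    exact (IsFractionRing.isAlgebraic_iff (Algebra.adjoin E₁ (X \ {z})) k' E).2 h5
  obtain ⟨k₂, hk₂⟩ : ∃ k₂ : IntermediateField ℂ E, k₂ = k'.restrictScalars ℂ := ⟨_, rfl⟩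
  have hmem : ∀ a : E, a ∈ k₂ ↔ a ∈ k' := fun a => by rw [hk₂]; rfl
  have hle : E₁ ≤ k₂ := by
    intro a ha
    rw [hmem]
    exact k'.algebraMap_mem ⟨a, ha⟩
  have hzk : Transcendental k₂ z := by
    intro h
    apply hzk'
    exact isAlg_mono (A := k₂.toSubfield) (B := k'.toSubfield) (fun a ha => (hmem a).1 ha) h
  have halg : ∀ a : E, IsAlgebraic k₂⟮z⟯ a := by
    intro a
    have h2 := hX.isAlgebraic_field
    rw [Subtype.range_coe] at h2
    refine isAlg_mono (A := (IntermediateField.adjoin E₁ X).toSubfield) (B := (k₂⟮z⟯).toSubfield)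
      ?_ (h2.isAlgebraic a)
    intro b hb
    change b ∈ k₂⟮z⟯
    have hb' : b ∈ IntermediateField.adjoin E₁ X := hb
    clear hb
    induction hb' using IntermediateField.adjoin_induction with
    | mem b hb =>
      by_cases hbz : b = z
      · rw [hbz]
        exact IntermediateField.mem_adjoin_simple_self _ _
      · have hbk : b ∈ k₂ := (hmem b).2 (IntermediateField.subset_adjoin _ _ ⟨hb, hbz⟩)
        exact (k₂⟮z⟯).algebraMap_mem ⟨b, hbk⟩
    | algebraMap b =>
      exact (k₂⟮z⟯).algebraMap_mem ⟨b, hle b.2⟩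
    | add b c _ _ hb hc => exact add_mem hb hc
    | mul b c _ _ hb hc => exact mul_mem hb hc
    | inv b _ hb => exact inv_mem hb
  have hess0 : Algebra.EssFiniteType k₂ E := Algebra.EssFiniteType.of_comp ℂ k₂ E
  have hess : Algebra.EssFiniteType k₂⟮z⟯ E := Algebra.EssFiniteType.of_comp k₂ k₂⟮z⟯ E
  have hfin : FiniteDimensional k₂⟮z⟯ E := by
    obtain ⟨s, hs⟩ := IntermediateField.fg_top k₂⟮z⟯ E
    have h5 : FiniteDimensional k₂⟮z⟯ (IntermediateField.adjoin k₂⟮z⟯ (s : Set E)) :=
      IntermediateField.finiteDimensional_adjoin (fun x _ => (halg x).isIntegral)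
    rw [hs] at h5
    exact IntermediateField.topEquiv.toLinearEquiv.finiteDimensional
  exact ⟨k₂, hle, IsFF.of_finite hzk hfin, hzk⟩

end Pool.Agent.L7h87.NC
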