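import Pool.Agent.W602.GT.Der
import Pool.Agent.L7h87.NC.Slice

/-!
Extension of homomorphisms into algebraically closed fields of infinite transcendence degree.
-/

set_option autoImplicit false
set_option linter.all false

open MvPolynomial IntermediateField

namespace Pool.Agent.L7h87.NC

theorem isAlg_map {A B : Type*} [Field A] [Field B] (x : A →+* B) {Z : Subfield A}
    {W : Subfield B} (h : ∀ a ∈ Z, x a ∈ W) {f : A} (hf : IsAlgebraic Z f) :
    IsAlgebraic W (x f) := by
  let i : Z →+* W := (x.comp Z.subtype).codRestrict W fun a => h a a.2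
  exact hf.ringHom_of_comp_eq i x i.injective (by ext a; rfl)

/-- homomorphisms can be prescribed on a transcendence basis -/
theorem extend_point {M₀ K Ω : Type} [Field M₀] [Field K] [Field Ω] [IsAlgClosed Ω]
    [Algebra M₀ K] [Algebra M₀ Ω] {ι : Type} {s : ι → K} (hs : IsTranscendenceBasis M₀ s)
    {u : ι → Ω} (hu : AlgebraicIndependent M₀ u) : ∃ ψ : K →ₐ[M₀] Ω, ∀ i, ψ (s i) = u i := by
  have halg := Pool.Agent.W602.GT.alg_of_basis s hs
  let _ : Algebra (MvPolynomial ι M₀) K :=
    ((aeval s : MvPolynomial ι M₀ →ₐ[M₀] K) : MvPolynomial ι M₀ →+* K).toAlgebra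
  let _ : Algebra (MvPolynomial ι M₀) Ω :=
    ((aeval u : MvPolynomial ι M₀ →ₐ[M₀] Ω) : MvPolynomial ι M₀ →+* Ω).toAlgebra
  have h1 : IsScalarTower M₀ (MvPolynomial ι M₀) K := IsScalarTower.of_algebraMap_eq' (by
    ext c
    simp [RingHom.algebraMap_toAlgebra])
  have h2 : IsScalarTower M₀ (MvPolynomial ι M₀) Ω := IsScalarTower.of_algebraMap_eq' (by
    ext c
    simp [RingHom.algebraMap_toAlgebra])
  have h3 : FaithfulSMul (MvPolynomial ι M₀) K :=
    (faithfulSMul_iff_algebraMap_injective _ _).2 hs.1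
  have h4 : FaithfulSMul (MvPolynomial ι M₀) Ω :=
    (faithfulSMul_iff_algebraMap_injective _ _).2 hu
  let ψ : K →ₐ[MvPolynomial ι M₀] Ω := IsAlgClosed.lift
  refine ⟨ψ.restrictScalars M₀, fun i => ?_⟩
  have h5 : s i = algebraMap (MvPolynomial ι M₀) K (X i) := by
    simp [RingHom.algebraMap_toAlgebra]
  have h6 : u i = algebraMap (MvPolynomial ι M₀) Ω (X i) := by
    simp [RingHom.algebraMap_toAlgebra]
  rw [h5, h6]
  exact ψ.commutes _

theorem exists_indep {Ω : Type} [Field Ω] [Algebra ℂ Ω] (hΩ : Cardinal.aleph0 ≤ Algebra.trdeg ℂ Ω)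
    (E : IntermediateField ℂ Ω) [Algebra.EssFiniteType ℂ E] (ι : Type) [Finite ι] :
    ∃ u : ι → Ω, AlgebraicIndependent E u := by
  obtain ⟨B, hB⟩ := exists_isTranscendenceBasis E Ω
  have h1 : Infinite B := by
    by_contra hfin
    rw [not_infinite_iff_finite] at hfin
    have h2 : Algebra.trdeg E Ω < Cardinal.aleph0 := by
      rw [← hB.cardinalMk_eq_trdeg]
      exact Cardinal.mk_lt_aleph0_iff.2 hfin
    have h3 : Algebra.trdeg ℂ E < Cardinal.aleph0 := trdeg_lt_aleph0 ℂ E
    have h4 : Algebra.trdeg ℂ E + Algebra.trdeg E Ω = Algebra.trdeg ℂ Ω := trdeg_add_eq ℂ E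
    have h5 := Cardinal.add_lt_aleph0 h3 h2
    rw [h4] at h5
    exact absurd hΩ (not_le.2 h5)
  obtain ⟨n, ⟨e⟩⟩ := Finite.exists_equiv_fin ι
  let f : ι → B := fun i => Infinite.natEmbedding B (e i)
  refine ⟨fun i => (f i : Ω), hB.1.comp f ?_⟩
  intro i j hij
  have := (Infinite.natEmbedding B).injective hij
  exact e.injective (Fin.ext this)

/-- a family is algebraically independent if it has at most as many elements as some algebraically
independent family whose elements are algebraic over it -/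
theorem indep_of_card {K Ω : Type} [Field K] [Field Ω] [Algebra K Ω] {ι κ : Type} [Finite ι]
    {w : ι → Ω} {t : κ → Ω} (ht : AlgebraicIndependent K t)
    (hcl : ∀ j, IsAlgebraic (IntermediateField.adjoin K (Set.range w)) (t j))
    (hcard : Cardinal.mk ι ≤ Cardinal.mk κ) : AlgebraicIndependent K w := by
  let A : IntermediateField K Ω :=
    (algebraicClosure (IntermediateField.adjoin K (Set.range w)) Ω).restrictScalars K
  have hA : ∀ a : Ω, a ∈ A ↔ IsAlgebraic (IntermediateField.adjoin K (Set.range w)) a :=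
    fun a => mem_algebraicClosure_iff
  let w' : ι → A := fun i => ⟨w i, (hA _).2 (isAlgebraic_algebraMap
    (⟨w i, IntermediateField.subset_adjoin _ _ ⟨i, rfl⟩⟩ :
      IntermediateField.adjoin K (Set.range w)))⟩
  let t' : κ → A := fun j => ⟨t j, (hA _).2 (hcl j)⟩
  have ht' : AlgebraicIndependent K t' := by
    refine AlgebraicIndependent.of_comp A.val ?_
    exact ht
  have hle : Cardinal.mk ι ≤ Algebra.trdeg K A := hcard.trans ht'.cardinalMk_le_trdeg
  have halg : Algebra.IsAlgebraic (Algebra.adjoin K (Set.range w')) A := by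
    refine ⟨fun a => ?_⟩
    have h1 : IsAlgebraic (Algebra.adjoin K (Set.range w)) (a : Ω) := by
      open scoped algebraAdjoinAdjoin in
      exact (IsFractionRing.isAlgebraic_iff (Algebra.adjoin K (Set.range w))
        (IntermediateField.adjoin K (Set.range w)) Ω).2 ((hA _).1 a.2)
    have hmap : (Algebra.adjoin K (Set.range w')).map A.val = Algebra.adjoin K (Set.range w) := by
      rw [AlgHom.map_adjoin, ← Set.range_comp]
      rfl
    let f : Algebra.adjoin K (Set.range w') →+* Algebra.adjoin K (Set.range w) :=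
      ((A.val : A →+* Ω).comp (algebraMap (Algebra.adjoin K (Set.range w')) A)).codRestrict
        (Algebra.adjoin K (Set.range w)) fun a => by
          rw [← hmap]
          exact ⟨a, a.2, rfl⟩
    refine h1.of_ringHom_of_comp_eq f (A.val : A →+* Ω) ?_ (A.val : A →+* Ω).injective ?_
    · rintro ⟨b, hb⟩
      rw [← hmap] at hb
      obtain ⟨c, hc, rfl⟩ := hb
      exact ⟨⟨c, hc⟩, rfl⟩
    · ext a
      rfl
  have h2 : IsTranscendenceBasis K w' :=
    Algebra.IsAlgebraic.isTranscendenceBasis_of_le_trdeg_of_finite K w' hle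
  exact h2.1.map' (f := A.val) A.val.toRingHom.injective

end Pool.Agent.L7h87.NC
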