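import Pool.Agent.L7h87.NC.Defs
import Pool.Agent.Y172.Loc3
import Pool.Agent.Helper386.D5V.Helper386_FF_RR

/-!
Heights of points of `X` with coordinates in a function field of one variable.
-/

set_option autoImplicit false
set_option linter.unusedSectionVars false
set_option linter.all false

open FF Pool.Agent.Y172 Pool.Agent.N110 Pool.Agent.N110.CC

namespace Pool.Agent.L7h87.NC

section restrict

variable {K k F : Type} [Field K] [Algebra ℂ K] [Field k] [Field F] [Algebra k F]

/-- the constants of `K` are mapped to constants -/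
def Over (k : Type) {K F : Type} [Field K] [Algebra ℂ K] [Field k] [Field F] [Algebra k F]
    (x : K →+* F) : Prop :=
  ∀ a : ℂ, ∃ b : k, x (algebraMap ℂ K a) = algebraMap k F b

theorem restrict {x : K →+* F} (hx : Over k x) (w : Place k F) :
    (∀ f, w.ord (x f) = 0) ∨
      ∃ (Q : Place ℂ K) (e : ℕ), 1 ≤ e ∧ ∀ f, w.ord (x f) = e * Q.ord f := by
  classical
  by_cases htriv : ∀ f, w.ord (x f) = 0
  · exact Or.inl htriv
  right
  push Not at htriv
  obtain ⟨f₀, hf₀⟩ := htriv
  have hx0 : ∀ {f : K}, f ≠ 0 → x f ≠ 0 := fun hf => by rwa [Ne, map_eq_zero]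
  have hf₀0 : f₀ ≠ 0 := by
    rintro rfl
    rw [map_zero, w.ord_zero] at hf₀
    exact hf₀ rfl
  let G : AddSubgroup ℤ :=
    { carrier := {a | ∃ f : K, f ≠ 0 ∧ w.ord (x f) = a}
      zero_mem' := ⟨1, one_ne_zero, by rw [map_one, w.ord_one]⟩
      add_mem' := by
        rintro _ _ ⟨f, hf, rfl⟩ ⟨g, hg, rfl⟩
        exact ⟨f * g, mul_ne_zero hf hg, by rw [map_mul, w.ord_mul (hx0 hf) (hx0 hg)]⟩
      neg_mem' := by
        rintro _ ⟨f, hf, rfl⟩
        exact ⟨f⁻¹, inv_ne_zero hf, by rw [map_inv₀, w.ord_inv]⟩ }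
  obtain ⟨a, ha⟩ := Int.subgroup_cyclic G
  have hmem : ∀ f : K, f ≠ 0 → a ∣ w.ord (x f) := by
    intro f hf
    have h1 : w.ord (x f) ∈ G := ⟨f, hf, rfl⟩
    rw [ha, AddSubgroup.mem_closure_singleton] at h1
    obtain ⟨n, hn⟩ := h1
    exact ⟨n, by rw [← hn, smul_eq_mul, mul_comm]⟩
  have ha0 : a ≠ 0 := by
    rintro rfl
    exact hf₀ (zero_dvd_iff.1 (hmem f₀ hf₀0))
  let e : ℕ := a.natAbs
  have he : 1 ≤ e := Nat.one_le_iff_ne_zero.2 (Int.natAbs_ne_zero.2 ha0)
  have he0 : (e : ℤ) ≠ 0 := by exact_mod_cast (by omega : e ≠ 0)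
  have hepos : (0 : ℤ) < e := by exact_mod_cast he
  have hdvd : ∀ f : K, (e : ℤ) ∣ w.ord (x f) := by
    intro f
    by_cases hf : f = 0
    · rw [hf, map_zero, w.ord_zero]
      exact dvd_zero _
    · exact Int.natAbs_dvd.2 (hmem f hf)
  have hcl : ∃ t : K, t ≠ 0 ∧ w.ord (x t) = e := by
    have h1 : (e : ℤ) ∈ G := by
      rw [ha]
      rcases Int.natAbs_eq a with h | h
      · change (a.natAbs : ℤ) ∈ _
        rw [← h]
        exact AddSubgroup.mem_closure_singleton_self a
      · change (a.natAbs : ℤ) ∈ _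
        have h2 : (a.natAbs : ℤ) = -a := by omega
        rw [h2]
        exact neg_mem (AddSubgroup.mem_closure_singleton_self a)
    exact h1
  have hdiv : ∀ f, w.ord (x f) = e * (w.ord (x f) / e) := fun f =>
    (Int.mul_ediv_cancel' (hdvd f)).symm
  let Q : Place ℂ K :=
    { ord := fun f => w.ord (x f) / e
      ord_zero := by rw [map_zero, w.ord_zero, Int.zero_ediv]
      ord_mul := by
        intro f g hf hg
        rw [map_mul, w.ord_mul (hx0 hf) (hx0 hg), Int.add_ediv_of_dvd_left (hdvd f)]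
      ord_add := by
        intro f g hf hg hfg
        have h1 := w.ord_add (hx0 hf) (hx0 hg) (by rw [← map_add]; exact hx0 hfg)
        rw [← map_add] at h1
        rcases min_le_iff.1 h1 with h | h
        · exact (min_le_left _ _).trans (Int.ediv_le_ediv hepos h)
        · exact (min_le_right _ _).trans (Int.ediv_le_ediv hepos h)
      ord_const := by
        intro a ha
        obtain ⟨b, hb⟩ := hx a
        have h0 : x (algebraMap ℂ K a) ≠ 0 := hx0 (by rwa [Ne, map_eq_zero])
        rw [hb] at h0 ⊢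
        rw [w.ord_const (by
          intro hb0
          rw [hb0, map_zero] at h0
          exact h0 rfl), Int.zero_ediv]
      surj := by
        obtain ⟨t, ht, hte⟩ := hcl
        exact ⟨t, ht, by rw [hte, Int.ediv_self he0]⟩ }
  exact ⟨Q, e, he, hdiv⟩

end restrict

section local_

variable {K : Type} [Field K] [Algebra ℂ K] {N : ℕ} {y : Fin (N + 1) → K}

theorem ord_le_of {Q : Place ℂ K} (hy : NormalModel y) {s h : K} (hs : s ≠ 0) (hh : h ≠ 0)
    (H : ∀ P, IsPrimeDivisor y P → Through y P Q → P.ord s ≤ P.ord h) : Q.ord s ≤ Q.ord h := by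
  have h1 : h / s ∈ localRing y Q := mem_localRing_of_reg hy fun P hP hPQ => by
    right
    rw [P.ord_div hh hs]
    have := H P hP hPQ
    omega
  have h2 := (Q.reg_iff (div_ne_zero hh hs)).1 (localRing_reg h1)
  rw [Q.ord_div hh hs] at h2
  omega

theorem Gen.congr {D D' : Place ℂ K → ℤ} {S : Finset K} (h : Gen y D S)
    (hD : ∀ P, IsPrimeDivisor y P → D P = D' P) : Gen y D' S where
  ne := h.ne
  sec := fun s hs => ⟨(h.sec s hs).1, fun P hP => by rw [← hD P hP]; exact (h.sec s hs).2 P hP⟩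
  gen := fun R => by
    obtain ⟨s, hs, h1⟩ := h.gen R
    exact ⟨s, hs, fun P hP hPR => by rw [← hD P hP]; exact h1 P hP hPR⟩

open scoped Pointwise in
theorem Gen.add {D D' : Place ℂ K → ℤ} {S S' : Finset K} [DecidableEq K] (h : Gen y D S)
    (h' : Gen y D' S') : Gen y (D + D') (S * S') where
  ne := h.ne.mul h'.ne
  sec := fun s hs => by
    obtain ⟨a, ha, b, hb, rfl⟩ := Finset.mem_mul.1 hs
    refine ⟨mul_ne_zero (h.sec a ha).1 (h'.sec b hb).1, fun P hP => ?_⟩
    rw [P.ord_mul (h.sec a ha).1 (h'.sec b hb).1, Pi.add_apply]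
    have h1 := (h.sec a ha).2 P hP
    have h2 := (h'.sec b hb).2 P hP
    omega
  gen := fun R => by
    obtain ⟨a, ha, h1⟩ := h.gen R
    obtain ⟨b, hb, h2⟩ := h'.gen R
    refine ⟨a * b, Finset.mul_mem_mul ha hb, fun P hP hPR => ?_⟩
    rw [P.ord_mul (h.sec a ha).1 (h'.sec b hb).1, Pi.add_apply]
    have h3 := h1 P hP hPR
    have h4 := h2 P hP hPR
    omega

theorem Gen.shift {D : Place ℂ K → ℤ} {S : Finset K} [DecidableEq K] (h : Gen y D S) {g : K}
    (hg : g ≠ 0) : Gen y (fun P => D P + P.ord g) (S.image fun s => s * g⁻¹) where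
  ne := h.ne.image _
  sec := fun s hs => by
    obtain ⟨a, ha, rfl⟩ := Finset.mem_image.1 hs
    refine ⟨mul_ne_zero (h.sec a ha).1 (inv_ne_zero hg), fun P hP => ?_⟩
    rw [P.ord_mul (h.sec a ha).1 (inv_ne_zero hg), P.ord_inv]
    have h1 := (h.sec a ha).2 P hP
    beta_reduce
    omega
  gen := fun R => by
    obtain ⟨a, ha, h1⟩ := h.gen R
    refine ⟨a * g⁻¹, Finset.mem_image.2 ⟨a, ha, rfl⟩, fun P hP hPR => ?_⟩
    rw [P.ord_mul (h.sec a ha).1 (inv_ne_zero hg), P.ord_inv]
    have h3 := h1 P hP hPR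
    beta_reduce
    omega

theorem Gen.one : Gen y 0 {1} where
  ne := Finset.singleton_nonempty 1
  sec := fun s hs => by
    rw [Finset.mem_singleton] at hs
    subst hs
    exact ⟨one_ne_zero, fun P _ => by rw [P.ord_one]; rfl⟩
  gen := fun R => ⟨1, Finset.mem_singleton_self _, fun P _ _ => by rw [P.ord_one]; rfl⟩

end local_

section pol

variable {K : Type} [Field K] [Algebra ℂ K] {N : ℕ} {y : Fin (N + 1) → K}
variable {k F : Type} [Field k] [Field F] [Algebra k F] [CharZero k] [IsFF k F]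

variable (k) in
/-- the poles of the coordinates `x s`, `s ∈ S` -/
noncomputable def pol (x : K →+* F) (S : Finset K) (hS : S.Nonempty) : Place k F →₀ ℤ :=
  Finsupp.ofSupportFinite (fun w => S.sup' hS fun s => - w.ord (x s)) (by
    have h1 : (⋃ s ∈ (S : Set K), {w : Place k F | w.ord (x s) ≠ 0}).Finite :=
      S.finite_toSet.biUnion fun s _ => finite_support (x s)
    refine h1.subset ?_
    intro w hw
    by_contra hcon
    apply hw
    simp only [Set.mem_iUnion, not_exists] at hcon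
    have h2 : ∀ s ∈ S, - w.ord (x s) = 0 := fun s hs => by
      have := hcon s hs
      simp only [Set.mem_setOf_eq, not_not] at this
      omega
    obtain ⟨s, hs⟩ := hS
    apply le_antisymm
    · exact Finset.sup'_le _ _ fun t ht => (h2 t ht).le
    · exact (h2 s hs).ge.trans (Finset.le_sup' (fun s => - w.ord (x s)) hs))

theorem pol_apply (x : K →+* F) (S : Finset K) (hS : S.Nonempty) (w : Place k F) :
    pol k x S hS w = S.sup' hS fun s => - w.ord (x s) := rfl

theorem le_pol {x : K →+* F} {S : Finset K} (hS : S.Nonempty) (w : Place k F) {s : K}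
    (hs : s ∈ S) : - w.ord (x s) ≤ pol k x S hS w :=
  Finset.le_sup' (fun s => - w.ord (x s)) hs

theorem exists_pol {x : K →+* F} {S : Finset K} (hS : S.Nonempty) (w : Place k F) :
    ∃ s ∈ S, pol k x S hS w = - w.ord (x s) :=
  Finset.exists_mem_eq_sup' hS _

theorem pol_mono (hy : NormalModel y) {x : K →+* F} (hx : Over k x) {D D' : Place ℂ K → ℤ}
    {S S' : Finset K} (h : Gen y D S) (h' : Gen y D' S')
    (hD : ∀ P, IsPrimeDivisor y P → D P ≤ D' P) : pol k x S h.ne ≤ pol k x S' h'.ne := by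
  intro w
  obtain ⟨s, hs, e⟩ := exists_pol (x := x) h.ne w
  rw [e]
  rcases restrict hx w with h0 | ⟨Q, m, hm, hQ⟩
  · obtain ⟨s', hs'⟩ := h'.ne
    refine le_trans ?_ (le_pol h'.ne w hs')
    rw [h0, h0]
  · obtain ⟨s', hs', h1⟩ := h'.gen Q
    refine le_trans ?_ (le_pol h'.ne w hs')
    have h2 : Q.ord s' ≤ Q.ord s := by
      refine ord_le_of hy (h'.sec s' hs').1 (h.sec s hs).1 fun P hP hPQ => ?_
      have h3 := h1 P hP hPQ
      have h4 := (h.sec s hs).2 P hP
      have h5 := hD P hP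
      omega
    rw [hQ, hQ]
    have h3 : (m : ℤ) * Q.ord s' ≤ m * Q.ord s :=
      mul_le_mul_of_nonneg_left h2 (by positivity)
    omega

theorem pol_congr (hy : NormalModel y) {x : K →+* F} (hx : Over k x) {D D' : Place ℂ K → ℤ}
    {S S' : Finset K} (h : Gen y D S) (h' : Gen y D' S')
    (hD : ∀ P, IsPrimeDivisor y P → D P = D' P) : pol k x S h.ne = pol k x S' h'.ne :=
  le_antisymm (pol_mono hy hx h h' fun P hP => (hD P hP).le)
    (pol_mono hy hx h' h fun P hP => (hD P hP).ge)

open scoped Pointwise in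
theorem pol_mul [DecidableEq K] {x : K →+* F} {S S' : Finset K} (hS : S.Nonempty)
    (hS' : S'.Nonempty) (h0 : ∀ s ∈ S, s ≠ 0) (h0' : ∀ s ∈ S', s ≠ 0) :
    pol k x (S * S') (hS.mul hS') = pol k x S hS + pol k x S' hS' := by
  ext w
  rw [Finsupp.add_apply]
  have hmul : ∀ a ∈ S, ∀ b ∈ S', - w.ord (x (a * b)) = - w.ord (x a) + - w.ord (x b) := by
    intro a ha b hb
    rw [map_mul, w.ord_mul ((map_ne_zero x).2 (h0 a ha)) ((map_ne_zero x).2 (h0' b hb))]
    ring
  apply le_antisymm
  · obtain ⟨s, hs, e⟩ := exists_pol (x := x) (hS.mul hS') w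
    rw [e]
    obtain ⟨a, ha, b, hb, rfl⟩ := Finset.mem_mul.1 hs
    rw [hmul a ha b hb]
    exact add_le_add (le_pol hS w ha) (le_pol hS' w hb)
  · obtain ⟨a, ha, e⟩ := exists_pol (x := x) hS w
    obtain ⟨b, hb, e'⟩ := exists_pol (x := x) hS' w
    rw [e, e', ← hmul a ha b hb]
    exact le_pol (hS.mul hS') w (Finset.mul_mem_mul ha hb)

theorem pol_shift [DecidableEq K] {x : K →+* F} {S : Finset K} (hS : S.Nonempty)
    (h0 : ∀ s ∈ S, s ≠ 0) {g : K} (hg : g ≠ 0) :
    pol k x (S.image fun s => s * g⁻¹) (hS.image _) = pol k x S hS + divisor k (x g) := by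
  ext w
  rw [Finsupp.add_apply, divisor_apply]
  have hmul : ∀ a ∈ S, - w.ord (x (a * g⁻¹)) = - w.ord (x a) + w.ord (x g) := by
    intro a ha
    rw [map_mul, w.ord_mul ((map_ne_zero x).2 (h0 a ha)) ((map_ne_zero x).2 (inv_ne_zero hg)),
      map_inv₀, w.ord_inv]
    ring
  apply le_antisymm
  · obtain ⟨s, hs, e⟩ := exists_pol (x := x) (hS.image _) w
    rw [e]
    obtain ⟨a, ha, rfl⟩ := Finset.mem_image.1 hs
    rw [hmul a ha]
    exact add_le_add (le_pol hS w ha) le_rfl
  · obtain ⟨a, ha, e⟩ := exists_pol (x := x) hS w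
    rw [e, ← hmul a ha]
    exact le_pol (hS.image _) w (Finset.mem_image.2 ⟨a, ha, rfl⟩)

/-- if the quotients of the coordinates have no zeros and poles, then the height is zero -/
theorem ddeg_pol_eq_zero {x : K →+* F} {S : Finset K} (hS : S.Nonempty) (h0 : ∀ s ∈ S, s ≠ 0)
    (h : ∀ s ∈ S, ∀ t ∈ S, ∀ w : Place k F, w.ord (x (s / t)) = 0) : ddeg (pol k x S hS) = 0 := by
  obtain ⟨t, ht⟩ := id hS
  have h1 : pol k x S hS = - divisor k (x t) := by
    ext w
    rw [Finsupp.neg_apply, divisor_apply]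
    have h2 : ∀ s ∈ S, - w.ord (x s) = - w.ord (x t) := by
      intro s hs
      have h3 := h s hs t ht w
      rw [map_div₀, w.ord_div ((map_ne_zero x).2 (h0 s hs)) ((map_ne_zero x).2 (h0 t ht))] at h3
      omega
    obtain ⟨s, hs, e⟩ := exists_pol (x := x) hS w
    rw [e, h2 s hs]
  rw [h1, ddeg_neg, ddeg_divisor, neg_zero]

/-- the height is nonnegative -/
theorem ddeg_pol_nonneg {x : K →+* F} {S : Finset K} (hS : S.Nonempty) :
    0 ≤ ddeg (pol k x S hS) := by
  obtain ⟨t, ht⟩ := id hS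
  have h1 : - divisor k (x t) ≤ pol k x S hS := fun w => by
    rw [Finsupp.neg_apply, divisor_apply]
    exact le_pol hS w ht
  have h2 := ddeg_mono h1
  rwa [ddeg_neg, ddeg_divisor, neg_zero] at h2

/-- if a quotient of two coordinates is transcendental, then the height is positive -/
theorem ddeg_pol_pos {x : K →+* F} {S : Finset K} (hS : S.Nonempty) (h0 : ∀ s ∈ S, s ≠ 0)
    {s t : K} (hs : s ∈ S) (ht : t ∈ S) (h : Transcendental k (x (s / t))) :
    0 < ddeg (pol k x S hS) := by
  have h1 : polar (k := k) (x (s / t)) ≤ pol k x S hS + divisor k (x t) := fun w => by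
    rw [Finsupp.add_apply, divisor_apply, polar_apply]
    apply max_le
    · rw [map_div₀, w.ord_div ((map_ne_zero x).2 (h0 s hs)) ((map_ne_zero x).2 (h0 t ht))]
      have := le_pol (x := x) hS w hs
      omega
    · have := le_pol (x := x) hS w ht
      omega
  have h2 := ddeg_mono h1
  rw [ddeg_add, ddeg_divisor, add_zero, ddeg_polar h] at h2
  have h3 : 0 < Module.finrank (IntermediateField.adjoin k {x (s / t)}) F := by
    have := IsFF.finite (K := F) h
    exact Module.finrank_pos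
  omega

/-- the heights at two points which have the same quotients of coordinates -/
theorem ddeg_pol_eq {x x' : K →+* F} {S : Finset K} (hS : S.Nonempty) (h0 : ∀ s ∈ S, s ≠ 0)
    (h : ∀ s ∈ S, ∀ t ∈ S, x (s / t) = x' (s / t)) :
    ddeg (pol k x S hS) = ddeg (pol k x' S hS) := by
  obtain ⟨t, ht⟩ := id hS
  have h1 : pol k x S hS + divisor k (x t) = pol k x' S hS + divisor k (x' t) := by
    ext w
    rw [Finsupp.add_apply, Finsupp.add_apply, divisor_apply, divisor_apply]
    have h2 : ∀ s ∈ S, - w.ord (x s) + w.ord (x t) = - w.ord (x' s) + w.ord (x' t) := by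
      intro s hs
      have h3 := congrArg w.ord (h s hs t ht)
      rw [map_div₀, map_div₀, w.ord_div ((map_ne_zero x).2 (h0 s hs)) ((map_ne_zero x).2 (h0 t ht)),
        w.ord_div ((map_ne_zero x').2 (h0 s hs)) ((map_ne_zero x').2 (h0 t ht))] at h3
      omega
    apply le_antisymm
    · obtain ⟨s, hs, e⟩ := exists_pol (x := x) hS w
      rw [e, h2 s hs]
      exact add_le_add (le_pol hS w hs) le_rfl
    · obtain ⟨s, hs, e⟩ := exists_pol (x := x') hS w
      rw [e, ← h2 s hs]
      exact add_le_add (le_pol hS w hs) le_rfl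
  have h2 := congrArg ddeg h1
  rwa [ddeg_add, ddeg_add, ddeg_divisor, ddeg_divisor, add_zero, add_zero] at h2

end pol

end Pool.Agent.L7h87.NC
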