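import Pool.Agent.L7h87.NC.Cls
import Pool.Agent.L7h87.NC.Slice

/-!
The field of the rational functions which are algebraic over the quotients of the sections of a base
point free divisor.
-/

set_option autoImplicit false
set_option linter.all false

open FF Pool.Agent.Y172 Pool.Agent.N110 Pool.Agent.N110.CC IntermediateField

namespace Pool.Agent.L7h87.NC

section

variable {K : Type} [Field K] [Algebra ℂ K] {N ρ : ℕ} {y : Fin (N + 1) → K}

open scoped Pointwise in
theorem Gen.prod [DecidableEq K] {ι : Type*} (s : Finset ι) {D : ι → Place ℂ K → ℤ}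
    {S : ι → Finset K} (h : ∀ i ∈ s, Gen y (D i) (S i)) :
    Gen y (∑ i ∈ s, D i) (∏ i ∈ s, S i) := by
  classical
  induction s using Finset.induction_on with
  | empty =>
    rw [Finset.sum_empty, Finset.prod_empty]
    exact Gen.one
  | insert i s hi ih =>
    rw [Finset.sum_insert hi, Finset.prod_insert hi]
    exact (h i (Finset.mem_insert_self _ _)).add
      (ih fun j hj => h j (Finset.mem_insert_of_mem hj))

/-- the quotients of the elements of `S` -/
def rat (S : Finset K) : Set K := {f | ∃ s ∈ S, ∃ t ∈ S, f = s / t}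

open scoped Pointwise in
theorem rat_prod [DecidableEq K] {ι : Type*} [DecidableEq ι] (s : Finset ι) {D : ι → Place ℂ K → ℤ}
    {S : ι → Finset K} (h : ∀ i ∈ s, Gen y (D i) (S i)) {i : ι} (hi : i ∈ s) :
    rat (S i) ⊆ rat (∏ i ∈ s, S i) := by
  rintro f ⟨a, ha, b, hb, rfl⟩
  have h1 := Gen.prod (s.erase i) fun j hj => h j (Finset.mem_of_mem_erase hj)
  obtain ⟨q, hq⟩ := h1.ne
  have hq0 : q ≠ 0 := (h1.sec q hq).1
  rw [← Finset.mul_prod_erase s _ hi]
  refine ⟨a * q, Finset.mul_mem_mul ha hq, b * q, Finset.mul_mem_mul hb hq, ?_⟩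
  rw [mul_div_mul_right _ _ hq0]

/-- the elements of `K` which are algebraic over the quotients of the elements of `S` -/
noncomputable def Kr (S : Finset K) : IntermediateField ℂ K :=
  (algebraicClosure (IntermediateField.adjoin ℂ (rat S)) K).restrictScalars ℂ

theorem mem_Kr {S : Finset K} {f : K} :
    f ∈ Kr S ↔ IsAlgebraic (IntermediateField.adjoin ℂ (rat S)) f := by
  change f ∈ algebraicClosure (IntermediateField.adjoin ℂ (rat S)) K ↔ _
  exact mem_algebraicClosure_iff

theorem Kr_alg {S : Finset K} {f : K} (h : IsAlgebraic (Kr S) f) : f ∈ Kr S := by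
  have h1 : f ∈ algebraicClosure (algebraicClosure (IntermediateField.adjoin ℂ (rat S)) K) K :=
    mem_algebraicClosure_iff.2 h
  rw [algebraicClosure.algebraicClosure_eq_bot] at h1
  obtain ⟨g, rfl⟩ := IntermediateField.mem_bot.1 h1
  exact g.2

theorem rat_Kr {S : Finset K} {f : K} (h : f ∈ rat S) : f ∈ Kr S := by
  rw [mem_Kr]
  exact isAlgebraic_algebraMap (⟨f, IntermediateField.subset_adjoin _ _ h⟩ :
    IntermediateField.adjoin ℂ (rat S))

theorem adjoin_rat {S : Finset K} (h0 : ∀ s ∈ S, s ≠ 0) {s₀ : K} (hs₀ : s₀ ∈ S) :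
    IntermediateField.adjoin ℂ (rat S) = IntermediateField.adjoin ℂ {f | ∃ s ∈ S, f = s / s₀} := by
  apply le_antisymm
  · rw [IntermediateField.adjoin_le_iff]
    rintro f ⟨s, hs, t, ht, rfl⟩
    have h1 : s / s₀ ∈ IntermediateField.adjoin ℂ {f | ∃ s ∈ S, f = s / s₀} :=
      IntermediateField.subset_adjoin _ _ ⟨s, hs, rfl⟩
    have h2 : t / s₀ ∈ IntermediateField.adjoin ℂ {f | ∃ s ∈ S, f = s / s₀} :=
      IntermediateField.subset_adjoin _ _ ⟨t, ht, rfl⟩
    have h3 : s / t = (s / s₀) / (t / s₀) := by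
      have := h0 t ht
      have := h0 s₀ hs₀
      field_simp
    rw [h3]
    exact div_mem h1 h2
  · rw [IntermediateField.adjoin_le_iff]
    rintro f ⟨s, hs, rfl⟩
    exact IntermediateField.subset_adjoin _ _ ⟨s, hs, s₀, hs₀, rfl⟩

/-- if the divisor is not big, then some element is transcendental over the quotients of its
sections -/
theorem exists_transc {n : ℕ} (hn : Algebra.trdeg ℂ K = n) {D : Place ℂ K → ℤ} {S : Finset K}
    (h : Gen y D S) (hD : ¬ Big y n D) : ∃ z : K, Transcendental (Kr S) z := by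
  classical
  by_contra hcon
  push Not at hcon
  apply hD
  have hall : ∀ z : K, IsAlgebraic (IntermediateField.adjoin ℂ (rat S)) z := fun z =>
    mem_Kr.1 (Kr_alg (by
      have := hcon z
      rwa [Transcendental, not_not] at this))
  obtain ⟨s₀, hs₀⟩ := h.ne
  set A : Set K := {f | ∃ s ∈ S, f = s / s₀} with hA
  rw [adjoin_rat (fun s hs => (h.sec s hs).1) hs₀, ← hA] at hall
  have halg : Algebra.IsAlgebraic (Algebra.adjoin ℂ A) K := by
    refine ⟨fun z => ?_⟩
    open scoped algebraAdjoinAdjoin in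
    exact (IsFractionRing.isAlgebraic_iff (Algebra.adjoin ℂ A)
      (IntermediateField.adjoin ℂ A) K).2 (hall z)
  obtain ⟨t, htA, ht⟩ := exists_isTranscendenceBasis_subset (R := ℂ) A
  have hcard : Cardinal.mk t = n := by
    rw [← hn]
    exact ht.cardinalMk_eq_trdeg
  obtain ⟨e⟩ : Nonempty (Fin n ≃ t) := by
    rw [← Cardinal.mk_fin] at hcard
    exact Cardinal.eq.1 hcard.symm
  have hch : ∀ i : Fin n, ∃ s ∈ S, ((e i : t) : K) = s / s₀ := fun i => htA (e i).2
  choose s hs hse using hch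
  refine ⟨1, le_rfl, Fin.cons s₀ s, ?_, ?_⟩
  · intro i
    rw [one_smul]
    refine Fin.cases ?_ (fun j => ?_) i
    · rw [Fin.cons_zero]
      exact h.sec s₀ hs₀
    · rw [Fin.cons_succ]
      exact h.sec _ (hs j)
  · have h1 := ht.1.comp e e.injective
    have h2 : (fun i : Fin n => (Fin.cons s₀ s : Fin (n + 1) → K) i.succ /
        (Fin.cons s₀ s : Fin (n + 1) → K) 0) = (Subtype.val ∘ e) := by
      funext i
      rw [Fin.cons_succ, Fin.cons_zero, Function.comp_apply, hse]
    rw [h2]
    exact h1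

/-- elements of the local ring at `Q` with order zero are units -/
theorem ord_eq_zero_of_unit (hy : NormalModel y) {Q : Place ℂ K} {g : K}
    (hg : ∀ P, IsPrimeDivisor y P → Through y P Q → P.Reg g) (hQ : Q.ord g = 0) (hg0 : g ≠ 0)
    {P : Place ℂ K} (hP : IsPrimeDivisor y P) (hPQ : Through y P Q) : P.ord g = 0 := by
  obtain ⟨j, hj, a, ha, b, hb, hb0, hbo, hab⟩ := mem_localRing_of_reg hy hg
  have ha0 : a ≠ 0 := by
    rw [← hab]
    exact mul_ne_zero hg0 hb0
  have hao : Q.ord a = 0 := by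
    rw [← hab, Q.ord_mul hg0 hb0, hQ, hbo]
    rfl
  have h1 : g⁻¹ ∈ localRing y Q := by
    refine ⟨j, hj, b, hb, a, ha, ha0, hao, ?_⟩
    rw [← hab]
    field_simp
  have h2 := (P.reg_iff hg0).1 (hg P hP hPQ)
  have h3 := (P.reg_iff (inv_ne_zero hg0)).1 (hPQ _ h1)
  rw [P.ord_inv] at h3
  omega

/-- If the place `Q` is trivial on `Kr S`, then so are the prime divisors through its centre. -/
theorem ord_trivial (hy : NormalModel y) {D : Place ℂ K → ℤ} {S : Finset K} (h : Gen y D S)
    {Q : Place ℂ K} (hQ : ∀ f ∈ Kr S, Q.ord f = 0) {P : Place ℂ K} (hP : IsPrimeDivisor y P)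
    (hPQ : Through y P Q) {f : K} (hf : f ∈ Kr S) : P.ord f = 0 := by
  classical
  obtain ⟨s₀, hs₀, hgen⟩ := h.gen Q
  set A : Set K := {f | ∃ s ∈ S, f = s / s₀} with hA
  have hadj := adjoin_rat (fun s hs => (h.sec s hs).1) hs₀
  rw [← hA] at hadj
  have h0 : s₀ ≠ 0 := (h.sec s₀ hs₀).1
  -- the algebra generated by the quotients
  have hB : ∀ g ∈ Algebra.adjoin ℂ A,
      ∀ P, IsPrimeDivisor y P → Through y P Q → P.Reg g := by
    intro g hg P hP hPQ
    induction hg using Algebra.adjoin_induction with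
    | mem g hg =>
      obtain ⟨s, hs, rfl⟩ := hg
      right
      rw [P.ord_div (h.sec s hs).1 h0]
      have h1 := (h.sec s hs).2 P hP
      have h2 := hgen P hP hPQ
      omega
    | algebraMap r => exact P.reg_const r
    | add a b _ _ ha hb => exact P.reg_add ha hb
    | mul a b _ _ ha hb => exact P.reg_mul ha hb
  have hBK : ∀ g ∈ Algebra.adjoin ℂ A, g ∈ Kr S := by
    intro g hg
    rw [mem_Kr]
    refine isAlgebraic_algebraMap (⟨g, ?_⟩ : IntermediateField.adjoin ℂ (rat S))
    rw [hadj]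
    exact IntermediateField.algebra_adjoin_le_adjoin _ _ hg
  have hB0 : ∀ g ∈ Algebra.adjoin ℂ A, P.ord g = 0 := by
    intro g hg
    by_cases hg0 : g = 0
    · rw [hg0, P.ord_zero]
    · exact ord_eq_zero_of_unit hy (hB g hg) (hQ g (hBK g hg)) hg0 hP hPQ
  have hF : ∀ g ∈ IntermediateField.adjoin ℂ (rat S), P.ord g = 0 := by
    intro g hg
    rw [hadj, IntermediateField.mem_adjoin_iff_div] at hg
    obtain ⟨a, ha, b, hb, rfl⟩ := hg
    by_cases ha0 : a = 0
    · rw [ha0, zero_div, P.ord_zero]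
    by_cases hb0 : b = 0
    · rw [hb0, div_zero, P.ord_zero]
    rw [P.ord_div ha0 hb0, hB0 a ha, hB0 b hb]
    rfl
  by_cases hf0 : f = 0
  · rw [hf0, P.ord_zero]
  let P' : Place (IntermediateField.adjoin ℂ (rat S)) K :=
    { ord := P.ord
      ord_zero := P.ord_zero
      ord_mul := P.ord_mul
      ord_add := P.ord_add
      ord_const := fun {a} _ => hF _ a.2
      surj := P.surj }
  exact P'.ord_eq_zero_of_isAlgebraic hf0 (mem_Kr.1 hf)

end

end Pool.Agent.L7h87.NC
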